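import Pool.Agent.H31.Dag.PT

/-!
# `DAGREACH⁻¹(P) ⊆ P`
-/

set_option autoImplicit false

namespace Pool.Agent.H31.Dag

open Pool.Agent.H80.Poly

variable {k : ℕ}

/-- the path graph with yield `w` -/
def pg (w : List (Fin k)) : LGraph k := w.zipIdx.map fun p => (p.2, p.1, p.2 + 1)

theorem mem_pg {w : List (Fin k)} {u v : ℕ} {a : Fin k} :
    (u, a, v) ∈ pg w ↔ v = u + 1 ∧ w[u]? = some a := by
  unfold pg
  simp only [List.mem_map, Prod.mk.injEq, Prod.exists]
  constructor
  · rintro ⟨b, i, h, rfl, rfl, rfl⟩
    rw [List.mem_zipIdx_iff_getElem?] at h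
    exact ⟨rfl, h⟩
  · rintro ⟨rfl, h⟩
    exact ⟨a, u, List.mem_zipIdx_iff_getElem?.2 h, rfl, rfl, rfl⟩

theorem path_pg {w w' : List (Fin k)} {u v : ℕ} (h : Path (pg w) u w' v) :
    v = u + w'.length ∧ w' = (w.drop u).take w'.length := by
  induction h with
  | nil u => simp
  | @cons u v t a w' he _ ih =>
    obtain ⟨rfl, h1⟩ := mem_pg.1 he
    obtain ⟨rfl, h2⟩ := ih
    refine ⟨by rw [List.length_cons]; omega, ?_⟩
    rw [List.length_cons]
    obtain ⟨hlt, h3⟩ := List.getElem?_eq_some_iff.1 h1
    rw [List.drop_eq_getElem_cons hlt, List.take_succ_cons, h3, ← h2]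

theorem acyclic_pg (w : List (Fin k)) : Acyclic (pg w) := by
  intro u w' h
  have := (path_pg h).1
  have h1 : w'.length = 0 := by omega
  exact List.length_eq_zero_iff.1 h1

theorem exists_path_pg (q : List (Fin k)) : ∀ p : List (Fin k),
    Path (pg (p ++ q)) p.length q (p.length + q.length) := by
  induction q with
  | nil => intro p; simpa using Path.nil _
  | cons a q ih =>
    intro p
    have h1 := ih (p ++ [a])
    rw [List.append_assoc, List.singleton_append, List.length_append, List.length_singleton] at h1
    rw [List.length_cons, show p.length + (q.length + 1) = p.length + 1 + q.length by omega]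
    exact Path.cons (mem_pg.2 ⟨rfl, by simp⟩) h1

theorem reach_pg (L : Set (List (Fin k))) (w : List (Fin k)) :
    (pg w, 0, w.length) ∈ DagReach L ↔ w ∈ L := by
  constructor
  · rintro ⟨_, w', hw', h⟩
    obtain ⟨h1, h2⟩ := path_pg h
    simp only at h1 h2
    have : w'.length = w.length := by omega
    rw [this, List.drop_zero, List.take_length] at h2
    rw [← h2]; exact hw'
  · intro h
    exact ⟨acyclic_pg w, w, h, by simpa using exists_path_pg w []⟩

theorem poly_pg {α : Type} [BEnc α] {w : α → List (Fin k)} (hw : PolyTime w) :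
    PolyTime (fun a => pg (w a)) := by
  unfold pg
  have h : PolyTime (fun x : α × (Fin k × ℕ) => x) := PolyTime.id
  exact hw.zipIdx.map (g := fun x : α × (Fin k × ℕ) => (x.2.2, x.2.1, x.2.2 + 1))
    (h.snd.snd.pair (h.snd.fst.pair h.snd.snd.succ))

/-! ### decoding -/

/-- the letter described by a block -/
def letter (b : List Bool) : Fin (k + 1) :=
  ⟨(b.findIdx fun x => x) % (k + 1), Nat.mod_lt _ (Nat.succ_pos k)⟩

/-- decoding of one-hot words -/
def deco (y : List Bool) : List (Fin (k + 1)) :=
  (List.range (y.length / (k + 1))).map fun i => letter ((y.drop (i * (k + 1))).take (k + 1))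

theorem letter_block (a : Fin (k + 1)) :
    letter (List.ofFn fun b : Fin (k + 1) => decide (b = a)) = a := by
  unfold letter
  have h1 : (List.ofFn fun b : Fin (k + 1) => decide (b = a)).findIdx (fun x => x) = a := by
    rw [List.findIdx_eq (by rw [List.length_ofFn]; exact a.2)]
    constructor
    · rw [List.getElem_ofFn]; simp
    · intro j hj
      simp only [List.getElem_ofFn, decide_eq_false_iff_not]
      intro h
      have := congrArg Fin.val h
      simp at this
      omega
  apply Fin.ext
  simp only [h1]
  exact Nat.mod_eq_of_lt a.2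

theorem oneHot_drop (w : List (Fin k)) : ∀ i, (oneHot w).drop (i * k) = oneHot (w.drop i) := by
  induction w with
  | nil => intro i; simp [oneHot]
  | cons a w ih =>
    intro i
    cases i with
    | zero => simp
    | succ i =>
      rw [oneHot_cons, List.drop_succ_cons, ← ih i, add_mul, one_mul, Nat.add_comm,
        ← List.drop_drop]
      congr 1
      rw [List.drop_append_of_le_length (by simp)]
      simp

theorem deco_oneHot (w : List (Fin (k + 1))) : deco (oneHot w) = w := by
  unfold deco
  have h1 : (oneHot w).length / (k + 1) = w.length := by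
    rw [length_oneHot]
    exact Nat.mul_div_cancel_left _ (Nat.succ_pos k)
  rw [h1]
  apply List.ext_getElem
  · simp
  · intro i h2 h3
    rw [List.getElem_map, List.getElem_range, oneHot_drop, List.drop_eq_getElem_cons h3,
      oneHot_cons, List.take_append_of_le_length (by simp), List.take_of_length_le (by simp),
      letter_block]

theorem poly_oneHot {α : Type} [BEnc α] {w : α → List (Fin k)} (hw : PolyTime w) :
    PolyTime (fun a => oneHot (w a)) := by
  unfold oneHot
  exact hw.flatMap (g := fun x : α × Fin k => List.ofFn fun b => decide (b = x.2))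
    ((PolyTime.ofFinite (fun a : Fin k => List.ofFn fun b => decide (b = a))).comp PolyTime.snd')

theorem poly_deco {α : Type} [BEnc α] {y : α → List Bool} (hy : PolyTime y) :
    PolyTime (fun a => (deco (y a) : List (Fin (k + 1)))) := by
  unfold deco
  obtain ⟨b, hb, hbs⟩ := hy.size_le
  have hw : PolyTime (fun w : α × ℕ => w) := PolyTime.id
  refine PolyTime.map (g := fun w : α × ℕ =>
    (letter (((y w.1).drop (w.2 * (k + 1))).take (k + 1)) : Fin (k + 1))) ?_ ?_
  · refine PolyTime.range (PolyTime.div (PolyTime.length hy) (PolyTime.const (k + 1)))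
      ⟨b, hb, fun a => ?_⟩
    exact (Nat.div_le_self _ _).trans ((length_le_size _).trans (hbs a))
  · unfold letter
    apply PolyTime.finMk
    refine PolyTime.mod ?_ (PolyTime.const (k + 1))
    refine PolyTime.findIdx (g := fun w : (α × ℕ) × Bool => w.2) ?_ PolyTime.snd'
    exact PolyTime.take (PolyTime.drop (hy.comp hw.fst)
      (PolyTime.mul hw.snd (PolyTime.const (k + 1)))) (PolyTime.const (k + 1))

/-! ### main statement -/

theorem inP_of_poly {S : Set (List Bool)} {D : List Bool → Bool}
    (h : PolyTime (fun s : Str => D s)) (hD : ∀ x, x ∈ S ↔ D x = true) :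
    InP (id : List Bool → List Bool) S :=
  ⟨D, h.tm2, hD⟩

theorem inP_of_dagReach {L : Set (List (Fin k))} (h : DagReachInP L) :
    InP (id : List Bool → List Bool) (oneHot '' L) := by
  cases k with
  | zero =>
    -- the only word is the empty one
    classical
    have hnil : ∀ w : List (Fin 0), w = [] := by
      intro w
      cases w with
      | nil => rfl
      | cons a w => exact a.elim0
    refine inP_of_poly (D := fun x : List Bool => decide (x = []) && decide ([] ∈ L)) ?_ ?_
    · exact PolyTime.and (PolyTime.eq (PolyTime.strToList'.comp PolyTime.id)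
        (PolyTime.const ([] : List Bool))) (PolyTime.const _)
    · intro x
      rw [Bool.and_eq_true, decide_eq_true_eq, decide_eq_true_eq]
      constructor
      · rintro ⟨w, hw, rfl⟩
        rw [hnil w] at hw ⊢
        exact ⟨rfl, hw⟩
      · rintro ⟨rfl, hL⟩
        exact ⟨[], hL, rfl⟩
  | succ k =>
    obtain ⟨D, hD, hDL⟩ := h
    have hD' : PolyTime D := TM.polyTime_of_tm2 hD
    refine inP_of_poly (D := fun x : List Bool => decide (oneHot (deco (k := k) x) = x) &&
      D (pg (deco (k := k) x), 0, (deco (k := k) x).length)) ?_ ?_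
    · have h1 : PolyTime (fun s : Str => (deco (k := k) (strToList s))) :=
        poly_deco PolyTime.strToList'
      exact PolyTime.and (PolyTime.eq (poly_oneHot h1) PolyTime.strToList')
        (hD'.comp ((poly_pg h1).pair ((PolyTime.const 0).pair (PolyTime.length h1))))
    · intro x
      rw [Bool.and_eq_true, decide_eq_true_eq, ← hDL, reach_pg]
      constructor
      · rintro ⟨w, hw, rfl⟩
        rw [deco_oneHot]
        exact ⟨rfl, hw⟩
      · rintro ⟨h1, h2⟩
        exact ⟨_, h2, h1⟩

end Pool.Agent.H31.Dag
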