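import Mathlib

/-!
# Counters on a work tape: bijective base-2 numbers
-/

set_option autoImplicit false

namespace Pool.Agent.H31.Dag

/-- increment; digits least significant first, `false` is the digit 1, `true` the digit 2 -/
def inc : List Bool → List Bool
  | [] => [false]
  | false :: l => true :: l
  | true :: l => false :: inc l

/-- decrement -/
def dec : List Bool → List Bool
  | [] => []
  | true :: l => false :: l
  | false :: l => match l with
    | [] => []
    | b :: l' => true :: dec (b :: l')

/-- digits of a number -/
def ds : ℕ → List Bool
  | 0 => []
  | n + 1 => inc (ds n)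

/-- value of digits -/
def dval : List Bool → ℕ
  | [] => 0
  | b :: l => (if b then 2 else 1) + 2 * dval l

theorem inc_ne_nil (l : List Bool) : inc l ≠ [] := by
  rcases l with _ | ⟨_ | _, l⟩ <;> simp [inc]

theorem dec_false_cons {l : List Bool} (h : l ≠ []) : dec (false :: l) = true :: dec l := by
  cases l with
  | nil => exact absurd rfl h
  | cons b l => simp [dec]

theorem dec_inc (l : List Bool) : dec (inc l) = l := by
  induction l with
  | nil => simp [inc, dec]
  | cons b l ih =>
    cases b with
    | false => simp [inc, dec]
    | true =>
      show dec (false :: inc l) = true :: l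
      rw [dec_false_cons (inc_ne_nil l), ih]

theorem ds_eq_nil_iff (n : ℕ) : ds n = [] ↔ n = 0 := by
  cases n with
  | zero => simp [ds]
  | succ n => simp [ds, inc_ne_nil]

theorem dec_ds (n : ℕ) : dec (ds n) = ds (n - 1) := by
  cases n with
  | zero => simp [ds, dec]
  | succ n => simp [ds, dec_inc]

theorem dval_inc (l : List Bool) : dval (inc l) = dval l + 1 := by
  induction l with
  | nil => simp [inc, dval]
  | cons b l ih =>
    cases b with
    | false => simp [inc, dval]; omega
    | true => simp only [inc, dval, ih]; simp; omega

theorem dval_ds (n : ℕ) : dval (ds n) = n := by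
  induction n with
  | zero => rfl
  | succ n ih => rw [ds, dval_inc, ih]

theorem two_pow_length_le (l : List Bool) : 2 ^ l.length ≤ dval l + 1 := by
  induction l with
  | nil => simp [dval]
  | cons b l ih =>
    simp only [List.length_cons, pow_succ, dval]
    split_ifs <;> omega

theorem length_ds_le (n : ℕ) : (ds n).length ≤ Nat.log 2 (n + 1) := by
  apply Nat.le_log_of_pow_le (by norm_num)
  have := two_pow_length_le (ds n)
  rwa [dval_ds] at this

/-- symbols on a counter tape; a digit carries a mark telling whether it stands on the first cell -/
inductive Dg : Type
  | blank
  | dig (first two : Bool)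
  deriving DecidableEq

instance : Finite Dg := by
  refine Finite.of_injective (β := Option (Bool × Bool))
    (fun d => match d with | .blank => none | .dig a b => some (a, b)) ?_
  intro a b h
  cases a <;> cases b <;> simp_all

/-- contents of a counter tape -/
def cont (l : List Bool) : ℤ → Dg
  | Int.ofNat i => match l[i]? with
    | none => Dg.blank
    | some b => Dg.dig (decide (i = 0)) b
  | Int.negSucc _ => Dg.blank

theorem cont_nil : cont [] = fun _ => Dg.blank := by
  funext z
  cases z <;> simp [cont]

theorem cont_natCast (l : List Bool) (i : ℕ) : cont l (i : ℤ) =
    match l[i]? with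
    | none => Dg.blank
    | some b => Dg.dig (decide (i = 0)) b := rfl

theorem cont_append_cons (p l : List Bool) (b : Bool) :
    cont (p ++ b :: l) (p.length : ℤ) = Dg.dig (decide (p.length = 0)) b := by
  rw [cont_natCast]
  simp

theorem cont_length (p : List Bool) : cont p (p.length : ℤ) = Dg.blank := by
  rw [cont_natCast]
  simp

theorem update_cont (p l : List Bool) (b c : Bool) :
    Function.update (cont (p ++ b :: l)) (p.length : ℤ) (Dg.dig (decide (p.length = 0)) c) =
      cont (p ++ c :: l) := by
  funext z
  cases z with
  | ofNat i =>
    by_cases hi : i = p.length
    · subst hi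
      rw [show (Int.ofNat p.length : ℤ) = (p.length : ℤ) from rfl, Function.update_self,
        cont_append_cons]
    · rw [Function.update_of_ne (by simpa using hi)]
      show (match (p ++ b :: l)[i]? with | none => _ | some b => _) =
        (match (p ++ c :: l)[i]? with | none => _ | some b => _)
      have : (p ++ b :: l)[i]? = (p ++ c :: l)[i]? := by
        rcases Nat.lt_or_ge i p.length with h | h
        · rw [List.getElem?_append_left h, List.getElem?_append_left h]
        · rw [List.getElem?_append_right h, List.getElem?_append_right h]
          obtain ⟨j, hj⟩ : ∃ j, i - p.length = j + 1 := ⟨i - p.length - 1, by omega⟩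
          rw [hj]
          simp
      rw [this]
  | negSucc i =>
    rw [Function.update_of_ne (by simp)]
    rfl

theorem update_cont_snoc (p : List Bool) (c : Bool) :
    Function.update (cont p) (p.length : ℤ) (Dg.dig (decide (p.length = 0)) c) =
      cont (p ++ [c]) := by
  funext z
  cases z with
  | ofNat i =>
    by_cases hi : i = p.length
    · subst hi
      rw [show (Int.ofNat p.length : ℤ) = (p.length : ℤ) from rfl, Function.update_self,
        cont_append_cons]
    · rw [Function.update_of_ne (by simpa using hi)]
      show (match p[i]? with | none => _ | some b => _) =
        (match (p ++ [c])[i]? with | none => _ | some b => _)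
      have : p[i]? = (p ++ [c])[i]? := by
        rcases Nat.lt_or_ge i p.length with h | h
        · rw [List.getElem?_append_left h]
        · rw [List.getElem?_append_right h, List.getElem?_eq_none h]
          obtain ⟨j, hj⟩ : ∃ j, i - p.length = j + 1 := ⟨i - p.length - 1, by omega⟩
          rw [hj]
          simp
      rw [this]
  | negSucc i =>
    rw [Function.update_of_ne (by simp)]
    rfl

theorem update_cont_blank (p : List Bool) (c : Bool) :
    Function.update (cont (p ++ [c])) (p.length : ℤ) Dg.blank = cont p := by
  rw [← update_cont_snoc, Function.update_idem]
  rw [← cont_length p, Function.update_eq_self]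

end Pool.Agent.H31.Dag
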