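import Pool.Agent.H31.Dag.Defs
import Pool.Agent.H31.Dag.Counter

/-!
# Turing machines with additional counters, and the elimination of the counters
-/

set_option autoImplicit false

namespace Pool.Agent.H31.Dag

open Relation

/-- A logspace machine with additional counters; at most one of them is changed in a step. -/
structure CM (O : Type) where
  Q : Type
  K : Type
  Γ : Type
  C : Type
  [finQ : Finite Q]
  [finK : Finite K]
  [finΓ : Finite Γ]
  [finC : Finite C]
  [decC : DecidableEq C]
  blank : Γ
  start : Q
  δ : Q → InSym → (K → Γ) → (C → Bool) →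
    Option (Q × Move × (K → Γ × Move) × Option O × Option (C × Bool))

attribute [instance] CM.finQ CM.finK CM.finΓ CM.finC CM.decC

namespace CM

variable {O : Type} (M : CM O)

structure Cfg where
  q : M.Q
  pos : ℕ
  tape : M.K → ℤ → M.Γ
  head : M.K → ℤ
  ctr : M.C → ℕ
  out : List O

def init : M.Cfg := ⟨M.start, 0, fun _ _ => M.blank, fun _ => 0, fun _ => 0, []⟩

/-- effect of a counter operation -/
def ctrOp (v : M.C → ℕ) : Option (M.C × Bool) → M.C → ℕ
  | none => v
  | some (i, true) => Function.update v i (v i + 1)
  | some (i, false) => Function.update v i (v i - 1)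

def step (w : List Bool) (c : M.Cfg) : Option M.Cfg :=
  (M.δ c.q (inSym w c.pos) (fun k => c.tape k (c.head k)) (fun i => decide (c.ctr i = 0))).map
    fun r =>
    { q := r.1
      pos := movePos w.length c.pos r.2.1
      tape := fun k => Function.update (c.tape k) (c.head k) (r.2.2.1 k).1
      head := fun k => c.head k + (r.2.2.1 k).2.toInt
      ctr := M.ctrOp c.ctr r.2.2.2.2
      out := c.out ++ r.2.2.2.1.toList }

/-- space bound -/
def Good (s : ℕ) (c : M.Cfg) : Prop := (∀ k, |c.head k| ≤ s) ∧ ∀ i, (ds (c.ctr i)).length + 1 ≤ s

/-- reachability within the space bound -/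
def Reach (w : List Bool) (s : ℕ) : M.Cfg → M.Cfg → Prop :=
  ReflTransGen (fun a b => M.step w a = some b ∧ M.Good s a ∧ M.Good s b)

end CM

/-! ### elimination of counters -/

inductive Micro : Type
  | carry (f : Bool)
  | borrow (f : Bool)
  | erase
  | ret
  deriving DecidableEq

instance : Finite Micro := by
  refine Finite.of_injective (β := Bool × Bool × Bool)
    (fun m => match m with
      | .carry f => (true, true, f)
      | .borrow f => (true, false, f)
      | .erase => (false, true, true)
      | .ret => (false, false, true)) ?_
  intro a b h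
  cases a <;> cases b <;> simp_all

/-- next micro state (`none`: done), symbol written, move -/
def Micro.act : Micro → Dg → Option Micro × Dg × Move
  | .carry f, .blank => (some .ret, .dig f false, .stay)
  | .carry _, .dig g true => (some (.carry false), .dig g false, .right)
  | .carry _, .dig g false => (some .ret, .dig g true, .stay)
  | .borrow true, .blank => (none, .blank, .stay)
  | .borrow false, .blank => (some .erase, .blank, .left)
  | .borrow _, .dig g true => (some .ret, .dig g false, .stay)
  | .borrow _, .dig g false => (some (.borrow false), .dig g true, .right)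
  | .erase, .dig true _ => (none, .blank, .stay)
  | .erase, .dig false _ => (some .ret, .blank, .left)
  | .erase, .blank => (none, .blank, .stay)
  | .ret, .dig true b => (none, .dig true b, .stay)
  | .ret, .dig false b => (some .ret, .dig false b, .left)
  | .ret, .blank => (some .ret, .blank, .left)

namespace CM

variable {O : Type} (M : CM O)

/-- state after a micro step -/
def nst (i : M.C) (q : M.Q) : Option Micro → M.Q ⊕ (M.C × Micro × M.Q)
  | none => Sum.inl q
  | some m => Sum.inr (i, m, q)

/-- transition function of the compiled machine -/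
def cδ : M.Q ⊕ (M.C × Micro × M.Q) → InSym → (M.K ⊕ M.C → M.Γ × Dg) →
    Option ((M.Q ⊕ (M.C × Micro × M.Q)) × Move × (M.K ⊕ M.C → (M.Γ × Dg) × Move) × Option O)
  | Sum.inl q, s, r =>
    (M.δ q s (fun k => (r (Sum.inl k)).1) (fun i => decide ((r (Sum.inr i)).2 = Dg.blank))).map
      fun x =>
      ((match x.2.2.2.2 with
        | none => Sum.inl x.1
        | some (i, true) => Sum.inr (i, Micro.carry true, x.1)
        | some (i, false) => Sum.inr (i, Micro.borrow true, x.1)),
       x.2.1,
       (fun k => match k with
        | Sum.inl k => (((x.2.2.1 k).1, Dg.blank), (x.2.2.1 k).2)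
        | Sum.inr i => (r (Sum.inr i), Move.stay)),
       x.2.2.2.1)
  | Sum.inr (i, m, q), _, r =>
    some (M.nst i q (m.act (r (Sum.inr i)).2).1, Move.stay,
      (fun k => match k with
        | Sum.inl k => (r (Sum.inl k), Move.stay)
        | Sum.inr j => if j = i then
            ((M.blank, (m.act (r (Sum.inr i)).2).2.1), (m.act (r (Sum.inr i)).2).2.2)
            else (r (Sum.inr j), Move.stay)), none)

open Classical in
/-- the compiled machine -/
noncomputable def toLog : LogTM O where
  Q := M.Q ⊕ (M.C × Micro × M.Q)
  K := M.K ⊕ M.C
  Γ := M.Γ × Dg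
  blank := (M.blank, Dg.blank)
  start := Sum.inl M.start
  δ := M.cδ

/-- configurations of the compiled machine in which the tape of counter `i` is processed -/
noncomputable def mcfg (c : M.Cfg) (i : M.C) (st : M.Q ⊕ (M.C × Micro × M.Q)) (l : List Bool)
    (h : ℤ) : M.toLog.Cfg where
  q := st
  pos := c.pos
  tape := fun k => match k with
    | Sum.inl k => fun z => (c.tape k z, Dg.blank)
    | Sum.inr j => fun z => (M.blank, cont (if j = i then l else ds (c.ctr j)) z)
  head := fun k => match k with
    | Sum.inl k => c.head k
    | Sum.inr j => if j = i then h else 0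
  out := c.out

/-- embedding of configurations -/
noncomputable def emb (c : M.Cfg) : M.toLog.Cfg where
  q := Sum.inl c.q
  pos := c.pos
  tape := fun k => match k with
    | Sum.inl k => fun z => (c.tape k z, Dg.blank)
    | Sum.inr j => fun z => (M.blank, cont (ds (c.ctr j)) z)
  head := fun k => match k with
    | Sum.inl k => c.head k
    | Sum.inr _ => 0
  out := c.out

variable {M}

theorem mcfg_emb (c : M.Cfg) (i : M.C) : M.mcfg c i (Sum.inl c.q) (ds (c.ctr i)) 0 = M.emb c := by
  unfold mcfg emb
  congr 1
  · funext k
    rcases k with k | j
    · rfl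
    · by_cases h : j = i
      · subst h; simp only [if_true]
      · simp only [h, if_false]
  · funext k
    rcases k with k | j
    · rfl
    · simp

theorem micro_step (w : List Bool) (c : M.Cfg) (i : M.C) (m : Micro) (q : M.Q) (l l' : List Bool)
    (h h' : ℤ) (hl : Function.update (cont l) h (m.act (cont l h)).2.1 = cont l')
    (hh : h' = h + (m.act (cont l h)).2.2.toInt) :
    M.toLog.step w (M.mcfg c i (Sum.inr (i, m, q)) l h) =
      some (M.mcfg c i (M.nst i q (m.act (cont l h)).1) l' h') := by
  subst hh
  unfold LogTM.step
  simp only [toLog, mcfg, cδ, Option.map_some, Option.some.injEq]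
  simp only [if_true]
  congr 1
  · funext k
    rcases k with k | j
    · exact Function.update_eq_self (a := c.head k) (f := fun z => (c.tape k z, Dg.blank))
    · by_cases hj : j = i
      · subst hj
        simp only [if_true]
        rw [← hl]
        funext z
        by_cases hz : z = h
        · subst hz; simp
        · simp [Function.update_of_ne hz]
      · simp only [hj, if_false]
        exact Function.update_eq_self (a := (0 : ℤ)) (f := fun z => (M.blank, cont (ds (c.ctr j)) z))
  · funext k
    rcases k with k | j
    · simp [Move.toInt]
    · by_cases hj : j = i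
      · subst hj
        simp
      · simp [hj, Move.toInt]
  · simp

theorem within_mcfg {s : ℕ} {c : M.Cfg} {i : M.C} {st : M.Q ⊕ (M.C × Micro × M.Q)} {l : List Bool}
    {h : ℤ} (hc : ∀ k, |c.head k| ≤ s) (hh : |h| ≤ s) : M.toLog.Within s (M.mcfg c i st l h) := by
  intro k
  rcases k with k | j
  · exact hc k
  · show |if j = i then h else 0| ≤ (s : ℤ)
    split_ifs
    · exact hh
    · simp

variable (M) in
/-- reachability of the compiled machine within the space bound -/
def LReach (w : List Bool) (s : ℕ) : M.toLog.Cfg → M.toLog.Cfg → Prop :=
  ReflTransGen (fun a b => M.toLog.step w a = some b ∧ M.toLog.Within s b)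

theorem LReach.one {w : List Bool} {s : ℕ} {a b : M.toLog.Cfg} (h : M.toLog.step w a = some b)
    (hb : M.toLog.Within s b) : M.LReach w s a b := ReflTransGen.single ⟨h, hb⟩

theorem abs_natCast_le {j s : ℕ} (h : j ≤ s) : |(j : ℤ)| ≤ s := by
  rw [abs_of_nonneg (by positivity)]
  exact_mod_cast h

theorem upd_same {l : List Bool} {h : ℤ} {d : Dg} (h0 : cont l h = d) :
    Function.update (cont l) h d = cont l := by
  rw [← h0, Function.update_eq_self]

/-- returning to the first cell -/
theorem ret_reach (w : List Bool) {s : ℕ} (c : M.Cfg) (hc : ∀ k, |c.head k| ≤ s) (i : M.C)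
    (q : M.Q) (l : List Bool) (hl : l.length ≤ s) (j : ℕ) (hj : j < l.length) :
    M.LReach w s (M.mcfg c i (Sum.inr (i, Micro.ret, q)) l j) (M.mcfg c i (Sum.inl q) l 0) := by
  induction j with
  | zero =>
    obtain ⟨b, l', rfl⟩ : ∃ b l', l = b :: l' := by
      cases l with
      | nil => simp at hj
      | cons b l' => exact ⟨b, l', rfl⟩
    have h0 : cont (b :: l') ((0 : ℕ) : ℤ) = Dg.dig true b := by
      rw [cont_natCast]; simp
    refine LReach.one ?_ (within_mcfg hc (by simp))
    have := micro_step w c i Micro.ret q (b :: l') (b :: l') ((0 : ℕ) : ℤ) 0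
      (by rw [h0]; exact upd_same h0)
      (by rw [h0]; rfl)
    rw [this, h0]
    rfl
  | succ j ih =>
    have h0 : cont l ((j + 1 : ℕ) : ℤ) = Dg.dig false l[j + 1] := by
      rw [cont_natCast, List.getElem?_eq_getElem hj]
      simp
    have := micro_step w c i Micro.ret q l l ((j + 1 : ℕ) : ℤ) (j : ℤ)
      (by rw [h0]; exact upd_same h0)
      (by rw [h0]; show (j : ℤ) = ((j + 1 : ℕ) : ℤ) + -1; push_cast; ring)
    rw [h0] at this
    exact ReflTransGen.head ⟨this, within_mcfg hc (abs_natCast_le (by omega))⟩ (ih (by omega))

theorem carry_reach (w : List Bool) {s : ℕ} (c : M.Cfg) (hc : ∀ k, |c.head k| ≤ s) (i : M.C)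
    (q : M.Q) : ∀ (l p : List Bool) (f : Bool), f = decide (p.length = 0) →
    (p ++ inc l).length ≤ s →
    M.LReach w s (M.mcfg c i (Sum.inr (i, Micro.carry f, q)) (p ++ l) p.length)
      (M.mcfg c i (Sum.inl q) (p ++ inc l) 0) := by
  intro l
  induction l with
  | nil =>
    intro p f hf hs
    rw [List.append_nil]
    have h0 := cont_length p
    have := micro_step w c i (Micro.carry f) q p (p ++ [false]) (p.length : ℤ) (p.length : ℤ)
      (by rw [h0, hf]; exact update_cont_snoc p false) (by rw [h0]; simp [Micro.act, Move.toInt])
    rw [h0] at this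
    refine ReflTransGen.head ⟨this, within_mcfg hc (abs_natCast_le ?_)⟩ ?_
    · simp [inc] at hs; omega
    · exact ret_reach w c hc i q (p ++ inc []) hs p.length (by simp [inc])
  | cons b l ih =>
    intro p f hf hs
    have h0 := cont_append_cons p l b
    cases b with
    | false =>
      have := micro_step w c i (Micro.carry f) q (p ++ false :: l) (p ++ true :: l) (p.length : ℤ)
        (p.length : ℤ) (by rw [h0]; exact update_cont p l false true)
        (by rw [h0]; simp [Micro.act, Move.toInt])
      rw [h0] at this
      refine ReflTransGen.head ⟨this, within_mcfg hc (abs_natCast_le ?_)⟩ ?_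
      · simp [inc] at hs; omega
      · exact ret_reach w c hc i q (p ++ inc (false :: l)) hs p.length (by simp [inc])
    | true =>
      have := micro_step w c i (Micro.carry f) q (p ++ true :: l) (p ++ false :: l) (p.length : ℤ)
        (p.length + 1 : ℕ) (by rw [h0]; exact update_cont p l true false)
        (by rw [h0]; simp [Micro.act, Move.toInt])
      rw [h0] at this
      refine ReflTransGen.head ⟨this, within_mcfg hc (abs_natCast_le ?_)⟩ ?_
      · simp [inc] at hs; omega
      · have h1 := ih (p ++ [false]) false (by simp) (by simpa [inc] using hs)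
        simp only [List.append_assoc, List.singleton_append, List.length_append,
          List.length_singleton] at h1
        exact h1

theorem borrow_reach (w : List Bool) {s : ℕ} (c : M.Cfg) (hc : ∀ k, |c.head k| ≤ s) (i : M.C)
    (q : M.Q) : ∀ (l p : List Bool) (f : Bool), l ≠ [] → f = decide (p.length = 0) →
    (p ++ l).length ≤ s →
    M.LReach w s (M.mcfg c i (Sum.inr (i, Micro.borrow f, q)) (p ++ l) p.length)
      (M.mcfg c i (Sum.inl q) (p ++ dec l) 0) := by
  intro l
  induction l with
  | nil => intro p f hl; exact absurd rfl hl
  | cons b l ih =>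
    intro p f _ hf hs
    have h0 := cont_append_cons p l b
    cases b with
    | true =>
      have := micro_step w c i (Micro.borrow f) q (p ++ true :: l) (p ++ false :: l) (p.length : ℤ)
        (p.length : ℤ) (by rw [h0]; cases f <;> exact update_cont p l true false)
        (by rw [h0]; cases f <;> simp [Micro.act, Move.toInt])
      rw [h0] at this
      refine ReflTransGen.head ⟨this, within_mcfg hc (abs_natCast_le ?_)⟩ ?_
      · simp at hs; omega
      · have h1 := ret_reach w c hc i q (p ++ dec (true :: l)) (by simpa [dec] using hs) p.length
          (by simp [dec])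
        cases f <;> exact h1
    | false =>
      have := micro_step w c i (Micro.borrow f) q (p ++ false :: l) (p ++ true :: l) (p.length : ℤ)
        (p.length + 1 : ℕ) (by rw [h0]; cases f <;> exact update_cont p l false true)
        (by rw [h0]; cases f <;> simp [Micro.act, Move.toInt])
      rw [h0] at this
      have hst : M.nst i q (Micro.act (Micro.borrow f) (Dg.dig (decide (p.length = 0)) false)).1 =
          Sum.inr (i, Micro.borrow false, q) := by cases f <;> rfl
      rw [hst] at this
      refine ReflTransGen.head ⟨this, within_mcfg hc (abs_natCast_le ?_)⟩ ?_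
      · simp at hs; omega
      by_cases hl : l = []
      · subst hl
        -- one step to the left
        have h1 : cont (p ++ [true]) ((p.length + 1 : ℕ) : ℤ) = Dg.blank := by
          have := cont_length (p ++ [true])
          simpa using this
        have h2 := micro_step w c i (Micro.borrow false) q (p ++ [true]) (p ++ [true])
          ((p.length + 1 : ℕ) : ℤ) (p.length : ℤ)
          (by rw [h1]; exact upd_same h1)
          (by rw [h1]; show (p.length : ℤ) = ((p.length + 1 : ℕ) : ℤ) + -1; push_cast; ring)
        rw [h1] at h2
        have hs' : p.length + 1 ≤ s := by simpa using hs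
        refine ReflTransGen.head ⟨h2, within_mcfg hc (abs_natCast_le (by omega))⟩ ?_
        have h3 := cont_append_cons p [] true
        by_cases hp : p.length = 0
        · have hp' : p = [] := List.length_eq_zero_iff.1 hp
          subst hp'
          have h4 := micro_step w c i Micro.erase q ([] ++ [true]) [] ((([] : List Bool).length : ℕ) : ℤ) 0
            (by rw [h3]; exact update_cont_blank [] true) (by rw [h3]; rfl)
          rw [h3] at h4
          refine LReach.one h4 (within_mcfg hc (by simp))
        · obtain ⟨m, hm⟩ : ∃ m, p.length = m + 1 := ⟨p.length - 1, by omega⟩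
          have h4 := micro_step w c i Micro.erase q (p ++ [true]) p (p.length : ℤ) (m : ℤ)
            (by rw [h3]; simp only [hp, decide_false]; exact update_cont_blank p true)
            (by rw [h3]; simp only [hp, decide_false]; show (m : ℤ) = (p.length : ℤ) + -1
                rw [hm]; push_cast; ring)
          rw [h3] at h4
          simp only [hp, decide_false] at h4
          refine ReflTransGen.head ⟨h4, within_mcfg hc (abs_natCast_le (by omega))⟩ ?_
          have h5 := ret_reach w c hc i q p (by omega) m (by omega)
          have : dec [false] = [] := by simp [dec]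
          rw [this, List.append_nil]
          exact h5
      · have h1 := ih (p ++ [true]) false hl (by simp) (by simpa using hs)
        simp only [List.append_assoc, List.singleton_append, List.length_append,
          List.length_singleton] at h1
        rw [dec_false_cons hl]
        exact h1

theorem cont_ds_zero (n : ℕ) : cont (ds n) 0 = Dg.blank ↔ n = 0 := by
  rw [← ds_eq_nil_iff]
  show cont (ds n) ((0 : ℕ) : ℤ) = Dg.blank ↔ _
  rw [cont_natCast]
  cases ds n <;> simp

/-- the first step of the simulation of a step -/
theorem emb_step_aux (w : List Bool) (a b : M.Cfg) (h : M.step w a = some b) :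
    ∃ op, b.ctr = M.ctrOp a.ctr op ∧ M.toLog.step w (M.emb a) = some (match op with
      | none => M.emb b
      | some (i, true) => M.mcfg b i (Sum.inr (i, Micro.carry true, b.q)) (ds (a.ctr i)) 0
      | some (i, false) => M.mcfg b i (Sum.inr (i, Micro.borrow true, b.q)) (ds (a.ctr i)) 0) := by
  unfold step at h
  rw [Option.map_eq_some_iff] at h
  obtain ⟨⟨q', mv, wr, o, op⟩, h1, h2⟩ := h
  subst h2
  refine ⟨op, rfl, ?_⟩
  have h3 : (fun i => decide (cont (ds (a.ctr i)) 0 = Dg.blank)) =
      (fun i => decide (a.ctr i = 0)) := by
    funext i
    simp only [cont_ds_zero]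
  unfold LogTM.step
  simp only [toLog, emb, cδ]
  rw [h3]
  simp only [h1, Option.map_some, Option.some.injEq]
  rcases op with _ | ⟨i, _ | _⟩
  · dsimp only
    congr 1
    · funext k
      rcases k with k | j
      · funext z
        by_cases hz : z = a.head k
        · subst hz; simp
        · simp [Function.update_of_ne hz]
      · exact Function.update_eq_self (a := (0 : ℤ)) (f := fun z => (M.blank, cont (ds (a.ctr j)) z))
    · funext k
      rcases k with k | j
      · rfl
      · simp [Move.toInt]
  · unfold mcfg
    congr 1
    · funext k
      rcases k with k | j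
      · funext z
        by_cases hz : z = a.head k
        · subst hz; simp
        · simp [Function.update_of_ne hz]
      · refine (Function.update_eq_self (a := (0 : ℤ))
          (f := fun z => (M.blank, cont (ds (a.ctr j)) z))).trans ?_
        funext z
        by_cases hj : j = i
        · subst hj; simp
        · simp [hj, ctrOp]
    · funext k
      rcases k with k | j
      · rfl
      · simp [Move.toInt]
  · unfold mcfg
    congr 1
    · funext k
      rcases k with k | j
      · funext z
        by_cases hz : z = a.head k
        · subst hz; simp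
        · simp [Function.update_of_ne hz]
      · refine (Function.update_eq_self (a := (0 : ℤ))
          (f := fun z => (M.blank, cont (ds (a.ctr j)) z))).trans ?_
        funext z
        by_cases hj : j = i
        · subst hj; simp
        · simp [hj, ctrOp]
    · funext k
      rcases k with k | j
      · rfl
      · simp [Move.toInt]

theorem within_emb {s : ℕ} {c : M.Cfg} (hc : ∀ k, |c.head k| ≤ s) :
    M.toLog.Within s (M.emb c) := by
  intro k
  rcases k with k | j
  · exact hc k
  · show |(0 : ℤ)| ≤ (s : ℤ)
    simp

theorem emb_step (w : List Bool) (s : ℕ) (a b : M.Cfg) (h : M.step w a = some b)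
    (ha : M.Good s a) (hb : M.Good s b) : M.LReach w s (M.emb a) (M.emb b) := by
  obtain ⟨op, hop, hst⟩ := emb_step_aux w a b h
  rcases op with _ | ⟨i, _ | _⟩
  · exact LReach.one hst (within_emb hb.1)
  · refine ReflTransGen.head ⟨hst, within_mcfg hb.1 (by simp)⟩ ?_
    dsimp only
    have hbi : b.ctr i = a.ctr i - 1 := by rw [hop]; simp [ctrOp]
    by_cases h0 : a.ctr i = 0
    · have h1 : ds (a.ctr i) = [] := (ds_eq_nil_iff _).2 h0
      rw [h1]
      have hc0 : cont [] 0 = Dg.blank := by rw [cont_nil]
      have h2 := micro_step w b i (Micro.borrow true) b.q [] [] 0 0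
        (by rw [hc0]; exact upd_same hc0) (by rw [hc0]; rfl)
      rw [hc0] at h2
      refine LReach.one (h2.trans ?_) (within_emb hb.1)
      rw [← mcfg_emb b i, hbi, h0]
      rfl
    · have h1 : ds (a.ctr i) ≠ [] := fun hh => h0 ((ds_eq_nil_iff _).1 hh)
      have h2 := borrow_reach w b hb.1 i b.q (ds (a.ctr i)) [] true h1 (by simp)
        (by have := ha.2 i; simp; omega)
      rw [List.nil_append, List.nil_append, dec_ds, ← hbi, mcfg_emb] at h2
      exact h2
  · refine ReflTransGen.head ⟨hst, within_mcfg hb.1 (by simp)⟩ ?_
    have hbi : b.ctr i = a.ctr i + 1 := by rw [hop]; simp [ctrOp]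
    have h3 : inc (ds (a.ctr i)) = ds (b.ctr i) := by rw [hbi]; rfl
    have h2 := carry_reach w b hb.1 i b.q (ds (a.ctr i)) [] true (by simp)
      (by have := hb.2 i; rw [List.nil_append, h3]; omega)
    rw [List.nil_append, List.nil_append, h3, mcfg_emb] at h2
    exact h2

theorem emb_halt (w : List Bool) (a : M.Cfg) (h : M.step w a = none) :
    M.toLog.step w (M.emb a) = none := by
  unfold step at h
  rw [Option.map_eq_none_iff] at h
  have h3 : (fun i => decide (cont (ds (a.ctr i)) 0 = Dg.blank)) =
      (fun i => decide (a.ctr i = 0)) := by
    funext i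
    simp only [cont_ds_zero]
  unfold LogTM.step
  simp only [toLog, emb, cδ]
  rw [h3, h]
  rfl

theorem emb_init : M.emb M.init = M.toLog.init := by
  unfold emb init LogTM.init
  congr 1
  · funext k
    rcases k with k | j
    · rfl
    · funext z
      simp only [ds, cont_nil]
      rfl
  · funext k
    rcases k with k | j <;> rfl

/-- **Elimination of counters.** -/
theorem computes {w : List Bool} {s : ℕ} {c : M.Cfg} (h : M.Reach w s M.init c)
    (hc : M.step w c = none) : M.toLog.Computes w s c.out := by
  refine ⟨M.emb c, ?_, emb_halt w c hc, rfl⟩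
  rw [← emb_init]
  clear hc
  induction h with
  | refl => exact ReflTransGen.refl
  | tail _ h ih => exact ih.trans (emb_step w s _ _ h.1 h.2.1 h.2.2)

end CM

end Pool.Agent.H31.Dag
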