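import Pool.Agent.H31.Dag.Prep

/-!
# Circuits for `K` from circuits for `L_K`
-/

set_option autoImplicit false

namespace Pool.Agent.H31.Dag

open Relation

/-! ### general facts -/

theorem run_append (A B : Circuit) (v : List Bool) : run (A ++ B) v = run B (run A v) := by
  simp [run]

theorem run_cons (g : Gate) (C : Circuit) (v : List Bool) : run (g :: C) v = run C (g.eval v :: v) :=
  rfl

theorem run_ne_nil (C : Circuit) : ∀ (v : List Bool), v ≠ [] → run C v ≠ [] := by
  induction C with
  | nil => intro v h; exact h
  | cons g C ih => intro v _; rw [run_cons]; exact ih _ (by simp)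

theorem depths_append (A B : Circuit) (v : List ℕ) :
    depths (A ++ B) v = depths B (depths A v) := by
  simp [depths]

theorem depths_cons (g : Gate) (C : Circuit) (v : List ℕ) :
    depths (g :: C) v = depths C (g.depth v :: v) := rfl

theorem toks_append (A B : Circuit) : toks (A ++ B) = toks A ++ toks B := by
  simp [toks]

theorem getD_append_left (v u : List Bool) {i : ℕ} (h : i < v.length) :
    (v ++ u).getD i false = v.getD i false := by
  simp [List.getD_eq_getElem?_getD, List.getElem?_append_left h]

theorem eval_append (g : Gate) (v u : List Bool) (h : g.Valid v.length) :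
    g.eval (v ++ u) = g.eval v := by
  cases g with
  | const b => rfl
  | not i => simp only [Gate.eval, getD_append_left v u h]
  | and i j => simp only [Gate.eval, getD_append_left v u h.1, getD_append_left v u h.2]
  | or i j => simp only [Gate.eval, getD_append_left v u h.1, getD_append_left v u h.2]

theorem run_append_junk (C : Circuit) : ∀ (v u : List Bool), Valid C v.length →
    run C (v ++ u) = run C v ++ u := by
  induction C with
  | nil => intro v u _; rfl
  | cons g C ih =>
    intro v u h
    rw [run_cons, run_cons, eval_append g v u h.1]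
    have := ih (g.eval v :: v) u (by simpa using h.2)
    simpa using this

theorem Gate.Valid.mono {g : Gate} {n m : ℕ} (h : g.Valid n) (hnm : n ≤ m) : g.Valid m := by
  cases g with
  | const b => trivial
  | not i => exact lt_of_lt_of_le h hnm
  | and i j => exact ⟨lt_of_lt_of_le h.1 hnm, lt_of_lt_of_le h.2 hnm⟩
  | or i j => exact ⟨lt_of_lt_of_le h.1 hnm, lt_of_lt_of_le h.2 hnm⟩

theorem Valid.mono {C : Circuit} : ∀ {n m : ℕ}, Valid C n → n ≤ m → Valid C m := by
  induction C with
  | nil => intro n m _ _; trivial
  | cons g C ih => intro n m h hnm; exact ⟨h.1.mono hnm, ih h.2 (by omega)⟩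

theorem valid_append (A B : Circuit) : ∀ n, Valid (A ++ B) n ↔ Valid A n ∧ Valid B (n + A.length) := by
  induction A with
  | nil => intro n; simp [Valid]
  | cons g A ih =>
    intro n
    simp only [List.cons_append, Valid, ih, List.length_cons, and_assoc]
    rw [show n + 1 + A.length = n + (A.length + 1) by omega]

/-- depths grow at most by the same amount -/
theorem depths_shift (C : Circuit) (b : ℕ) : ∀ d e : List ℕ, (∀ i, d.getD i 0 ≤ e.getD i 0 + b) →
    ∀ i, (depths C d).getD i 0 ≤ (depths C e).getD i 0 + b := by
  induction C with
  | nil => intro d e h; exact h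
  | cons g C ih =>
    intro d e h
    rw [depths_cons, depths_cons]
    apply ih
    intro i
    cases i with
    | zero =>
      simp only [List.getD_cons_zero]
      cases g with
      | const b => simp [Gate.depth]
      | not i => have := h i; simp only [Gate.depth]; omega
      | and i j => have := h i; have := h j; simp only [Gate.depth]; omega
      | or i j => have := h i; have := h j; simp only [Gate.depth]; omega
    | succ i => simpa using h i

/-! ### the gates of the first phase -/

/-- letters for bits -/
def lt (b : Bool) : Fin 3 := if b then 1 else 0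

/-- the code word `x # x` -/
def code (x : List Bool) : List (Fin 3) := x.map lt ++ (2 :: x.map lt)

theorem oneHot_append {k : ℕ} (u v : List (Fin k)) : oneHot (u ++ v) = oneHot u ++ oneHot v := by
  simp [oneHot]

theorem length_oneHot {k : ℕ} (u : List (Fin k)) : (oneHot u).length = k * u.length := by
  induction u with
  | nil => simp [oneHot]
  | cons a u ih =>
    have : oneHot (a :: u) = (List.ofFn fun b => decide (b = a)) ++ oneHot u := by simp [oneHot]
    rw [this, List.length_append, ih, List.length_ofFn, List.length_cons]
    ring

theorem oneHot_cons {k : ℕ} (a : Fin k) (u : List (Fin k)) :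
    oneHot (a :: u) = (List.ofFn fun b => decide (b = a)) ++ oneHot u := by
  simp [oneHot]

theorem oneHot_injective (k : ℕ) : Function.Injective (oneHot : List (Fin k) → List Bool) := by
  intro u
  induction u with
  | nil =>
    intro v h
    cases v with
    | nil => rfl
    | cons b v =>
      have h1 := congrArg List.length h
      rw [length_oneHot, length_oneHot] at h1
      have := b.pos
      simp at h1
      omega
  | cons a u ih =>
    intro v h
    cases v with
    | nil =>
      have h1 := congrArg List.length h
      rw [length_oneHot, length_oneHot] at h1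
      have := a.pos
      simp at h1
      omega
    | cons b v =>
      rw [oneHot_cons, oneHot_cons] at h
      obtain ⟨h1, h2⟩ := List.append_inj h (by simp)
      rw [List.ofFn_inj] at h1
      have h3 := congrFun h1 a
      simp only [decide_true] at h3
      have h4 : a = b := by
        have := h3.symm
        simpa using this
      rw [h4, ih h2]

theorem oneHot_lt (b : Bool) : oneHot [lt b] = [!b, b, false] := by
  cases b <;> simp [oneHot, lt, List.ofFn_succ]

theorem run_tri (v : List Bool) (x : ℕ) : run (tri x) v =
    false :: v.getD (x - 1) false :: (!(v.getD (x - 1) false)) :: v := by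
  simp [run, tri, Gate.eval]

theorem getD_append_right' (u v : List Bool) (i : ℕ) :
    (u ++ v).getD (u.length + i) false = v.getD i false := by
  simp only [List.getD_eq_getElem?_getD]
  rw [List.getElem?_append_right (by omega), Nat.add_sub_cancel_left]

theorem run_pass (x v : List Bool) (a : ℕ) (ha : x.length ≤ a)
    (hv : ∀ i < x.length, v.getD (a - 1 - i) false = x.getD i false) : ∀ j ≤ x.length,
    run ((List.range j).flatMap fun i => tri (a + 2 * i)) v =
      (oneHot ((x.take j).map lt)).reverse ++ v := by
  intro j
  induction j with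
  | zero => intro _; simp [run, oneHot]
  | succ j ih =>
    intro hj
    rw [List.range_succ, List.flatMap_append, run_append, ih (by omega)]
    simp only [List.flatMap_cons, List.flatMap_nil, List.append_nil]
    have hlen : (oneHot ((x.take j).map lt)).reverse.length = 3 * j := by
      rw [List.length_reverse, length_oneHot, List.length_map, List.length_take]
      congr 1
      omega
    have hidx : a + 2 * j - 1 = (oneHot ((x.take j).map lt)).reverse.length + (a - 1 - j) := by
      rw [hlen]; omega
    rw [run_tri, hidx, getD_append_right', hv j (by omega)]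
    have htake : x.take (j + 1) = x.take j ++ [x.getD j false] := by
      rw [List.take_add_one]
      congr 1
      rw [List.getElem?_eq_getElem (by omega)]
      simp [List.getD_eq_getElem?_getD, List.getElem?_eq_getElem (show j < x.length by omega)]
    rw [htake, List.map_append, oneHot_append, List.map_cons, List.map_nil, oneHot_lt,
      List.reverse_append]
    simp

theorem run_pre (x : List Bool) : run (pre x.length) x.reverse =
    (oneHot (code x)).reverse ++ x.reverse := by
  unfold pre
  rw [run_append, run_append]
  have h1 := run_pass x x.reverse x.length le_rfl (by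
    intro i hi
    simp only [List.getD_eq_getElem?_getD]
    rw [List.getElem?_reverse (by omega)]
    congr 2
    omega) x.length le_rfl
  rw [h1, List.take_length]
  have h2 : run [Gate.const false, Gate.const false, Gate.const true]
      ((oneHot (x.map lt)).reverse ++ x.reverse) =
      (oneHot (x.map lt ++ [2])).reverse ++ x.reverse := by
    rw [oneHot_append, List.reverse_append]
    simp [run, Gate.eval, oneHot, List.ofFn_succ]
  rw [h2]
  have hlen : (oneHot (x.map lt ++ [2])).reverse.length = 3 * x.length + 3 := by
    rw [List.length_reverse, length_oneHot, List.length_append, List.length_map]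
    simp; ring
  have h3 := run_pass x ((oneHot (x.map lt ++ [2])).reverse ++ x.reverse) (4 * x.length + 3)
    (by omega) (by
      intro i hi
      have hidx : 4 * x.length + 3 - 1 - i =
          (oneHot (x.map lt ++ [2])).reverse.length + (x.length - 1 - i) := by
        rw [hlen]; omega
      rw [hidx, getD_append_right']
      simp only [List.getD_eq_getElem?_getD]
      rw [List.getElem?_reverse (by omega)]
      congr 2
      omega) x.length le_rfl
  rw [h3, List.take_length]
  have : code x = (x.map lt ++ [2]) ++ x.map lt := by simp [code]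
  rw [this, oneHot_append (x.map lt ++ [2]), List.reverse_append, List.append_assoc]

theorem length_pre (n : ℕ) : (pre n).length = 6 * n + 3 := by
  simp [pre, tri, List.length_flatMap, List.map_const']
  ring

theorem depths_tri (d : List ℕ) (x : ℕ) (h : d.getD (x - 1) 0 = 0) :
    depths (tri x) d = 0 :: 2 :: 1 :: d := by
  simp only [depths, tri, List.foldl_cons, List.foldl_nil, Gate.depth, h]
  simp

theorem depths_pass (d : List ℕ) (n a : ℕ) (ha : n ≤ a) (hd : ∀ i < n, d.getD (a - 1 - i) 0 = 0) :
    ∀ j ≤ n, depths ((List.range j).flatMap fun i => tri (a + 2 * i)) d =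
      (List.replicate j [0, 2, 1]).flatten ++ d := by
  intro j
  induction j with
  | zero => intro _; simp [depths]
  | succ j ih =>
    intro hj
    rw [List.range_succ, List.flatMap_append, depths_append, ih (by omega)]
    simp only [List.flatMap_cons, List.flatMap_nil, List.append_nil]
    have hlen : (List.replicate j [0, 2, 1]).flatten.length = 3 * j := by
      simp; ring
    have hidx : a + 2 * j - 1 = (List.replicate j [0, 2, 1]).flatten.length + (a - 1 - j) := by
      rw [hlen]; omega
    rw [depths_tri]
    · rw [List.replicate_succ]; rfl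
    · rw [hidx]
      have := hd j (by omega)
      simp only [List.getD_eq_getElem?_getD] at this ⊢
      rw [List.getElem?_append_right (by omega)]
      rw [Nat.add_sub_cancel_left]
      exact this

theorem depths_pre (n : ℕ) : ∀ i, (depths (pre n) (List.replicate n 0)).getD i 0 ≤ 2 := by
  have h0 : ∀ m i, (List.replicate m 0 : List ℕ).getD i 0 = 0 := by
    intro m i
    simp only [List.getD_eq_getElem?_getD]
    by_cases h : i < m
    · rw [List.getElem?_replicate]; simp [h]
    · rw [List.getElem?_replicate]; simp [h]
  unfold pre
  rw [depths_append, depths_append]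
  rw [depths_pass _ n n le_rfl (fun i _ => h0 _ _) n le_rfl]
  have h2 : depths [Gate.const false, Gate.const false, Gate.const true]
      ((List.replicate n [0, 2, 1]).flatten ++ List.replicate n 0) =
      ([0, 0, 0] ++ (List.replicate n [0, 2, 1]).flatten) ++ List.replicate n 0 := by
    simp [depths, Gate.depth]
  rw [h2]
  have hlen : ([0, 0, 0] ++ (List.replicate n [0, 2, 1]).flatten).length = 3 * n + 3 := by
    simp; ring
  rw [depths_pass _ n (4 * n + 3) (by omega) (by
    intro i hi
    simp only [List.getD_eq_getElem?_getD]
    rw [List.getElem?_append_right (by rw [hlen]; omega), ← List.getD_eq_getElem?_getD]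
    exact h0 _ _) n le_rfl]
  intro i
  have key : ∀ d ∈ (List.replicate n [0, 2, 1]).flatten ++
      (([0, 0, 0] ++ (List.replicate n [0, 2, 1]).flatten) ++ List.replicate n 0), d ≤ 2 := by
    intro d hd
    simp only [List.mem_append, List.mem_flatten, List.mem_replicate, List.mem_cons,
      List.not_mem_nil, or_false] at hd
    rcases hd with ⟨l, ⟨_, rfl⟩, hd⟩ | ⟨h | ⟨l, ⟨_, rfl⟩, hd⟩⟩ | hd
    · simp at hd; omega
    · omega
    · simp at hd; omega
    · omega
  rcases Nat.lt_or_ge i (((List.replicate n [0, 2, 1]).flatten ++
      (([0, 0, 0] ++ (List.replicate n [0, 2, 1]).flatten) ++ List.replicate n 0)).length)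
    with h | h
  · rw [List.getD_eq_getElem _ _ h]
    exact key _ (List.getElem_mem h)
  · rw [List.getD_eq_default _ _ h]
    omega

theorem valid_pass (n a : ℕ) (ha : n ≤ a) : ∀ j ≤ n,
    Valid ((List.range j).flatMap fun i => tri (a + 2 * i)) a := by
  intro j
  induction j with
  | zero => intro _; trivial
  | succ j ih =>
    intro hj
    rw [List.range_succ, List.flatMap_append, valid_append]
    refine ⟨ih (by omega), ?_⟩
    have hlen : ((List.range j).flatMap fun i => tri (a + 2 * i)).length = 3 * j := by
      simp [tri, List.length_flatMap, List.map_const']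
      ring
    rw [hlen]
    simp only [List.flatMap_cons, List.flatMap_nil, List.append_nil]
    exact ⟨show a + 2 * j - 1 < a + 3 * j by omega, show 0 < a + 3 * j + 1 by omega, trivial,
      trivial⟩

theorem valid_pre (n : ℕ) : Valid (pre n) n := by
  unfold pre
  rw [valid_append, valid_append]
  have hlen : ((List.range n).flatMap fun i => tri (n + 2 * i)).length = 3 * n := by
    simp [tri, List.length_flatMap, List.map_const']
    ring
  refine ⟨⟨valid_pass n n le_rfl n le_rfl, ?_⟩, ?_⟩
  · simp [Valid, Gate.Valid]
  · refine (valid_pass n (4 * n + 3) (by omega) n le_rfl).mono ?_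
    rw [List.length_append, hlen]
    simp; omega

/-! ### the reduction -/

theorem LogTM.Computes.mono {O : Type} {M : LogTM O} {w : List Bool} {s t : ℕ} {y : List O}
    (h : M.Computes w s y) (hst : s ≤ t) : M.Computes w t y := by
  obtain ⟨c, h1, h2, h3⟩ := h
  refine ⟨c, ?_, h2, h3⟩
  exact ReflTransGen.mono (fun a b h => ⟨h.1, fun k => (h.2 k).trans (by exact_mod_cast hst)⟩) _ _ h1

theorem log_bound (n : ℕ) : Nat.log 2 (6 * n + 5) ≤ Nat.log 2 n + 4 := by
  rcases Nat.eq_zero_or_pos n with h | h
  · subst h
    have : Nat.log 2 5 < 3 := Nat.log_lt_of_lt_pow (by norm_num) (by norm_num)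
    simp only [Nat.mul_zero, Nat.zero_add]
    omega
  · have h1 : n < 2 ^ (Nat.log 2 n + 1) := Nat.lt_pow_succ_log_self (by norm_num) n
    have h2 : Nat.log 2 (6 * n + 5) < Nat.log 2 n + 5 := by
      apply Nat.log_lt_of_lt_pow (by omega)
      have h3 : 2 ^ (Nat.log 2 n + 5) = 16 * 2 ^ (Nat.log 2 n + 1) := by ring
      omega
    omega

theorem pow_bound (l j : ℕ) : (l + 4) ^ j ≤ 5 ^ j * l ^ j + 5 ^ j := by
  rcases Nat.eq_zero_or_pos l with h | h
  · subst h
    calc (0 + 4) ^ j ≤ 5 ^ j := Nat.pow_le_pow_left (by norm_num) j
      _ ≤ _ := Nat.le_add_left _ _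
  · calc (l + 4) ^ j ≤ (5 * l) ^ j := Nat.pow_le_pow_left (by omega) j
      _ = 5 ^ j * l ^ j := mul_pow _ _ _
      _ ≤ _ := Nat.le_add_right _ _

/-- If `L ⊆ {0,1,#}*` is in NC, so is `{x | x # x ∈ L}`. -/
theorem nc_code {L : Set (List (Fin 3))} (h : InNCk L) : InNC {x | code x ∈ L} := by
  obtain ⟨j, C, hval, ⟨M, c, hM⟩, ⟨p, hp⟩, ⟨c', hc'⟩, hL⟩ := h
  refine ⟨j, fun n => pre n ++ C (6 * n + 3), fun n => ?_, ?_, ?_, ?_, fun x => ?_⟩
  · rw [valid_append]
    exact ⟨valid_pre n, (hval (6 * n + 3)).mono (by rw [length_pre]; omega)⟩
  · refine ⟨(prep M).toLog, 5 * (c + 1), fun n => ?_⟩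
    show (prep M).toLog.Computes _ _ (toks (pre n ++ C (6 * n + 3)))
    rw [toks_append]
    apply prep_computes
    · have := log_bound n
      nlinarith [Nat.zero_le (c * Nat.log 2 n)]
    · refine (hM (6 * n + 3)).mono ?_
      have h1 : Nat.log 2 (6 * n + 3) ≤ Nat.log 2 n + 4 :=
        (Nat.log_mono_right (by omega)).trans (log_bound n)
      have h2 : c * Nat.log 2 (6 * n + 3) ≤ c * (Nat.log 2 n + 4) := Nat.mul_le_mul_left _ h1
      nlinarith [Nat.zero_le (c * Nat.log 2 n)]
  · refine ⟨6 * Polynomial.X + 3 + p.comp (6 * Polynomial.X + 3), fun n => ?_⟩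
    rw [List.length_append, length_pre]
    simp only [Polynomial.eval_add, Polynomial.eval_mul, Polynomial.eval_comp, Polynomial.eval_X,
      Polynomial.eval_ofNat]
    exact Nat.add_le_add_left (hp _) _
  · refine ⟨c' * 5 ^ j + c' + 2, fun n => ?_⟩
    intro d hd
    rw [depths_append] at hd
    obtain ⟨i, hi, rfl⟩ := List.mem_iff_getElem.1 hd
    have h1 := depths_shift (C (6 * n + 3)) 2 (depths (pre n) (List.replicate n 0))
      (List.replicate (6 * n + 3) 0) (fun i => (depths_pre n i).trans (Nat.le_add_left _ _)) i
    rw [List.getD_eq_getElem _ _ hi] at h1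
    have h2 : (depths (C (6 * n + 3)) (List.replicate (6 * n + 3) 0)).getD i 0 ≤
        c' * Nat.log 2 (6 * n + 3) ^ j + c' := by
      rcases Nat.lt_or_ge i (depths (C (6 * n + 3)) (List.replicate (6 * n + 3) 0)).length
        with h | h
      · rw [List.getD_eq_getElem _ _ h]
        exact hc' (6 * n + 3) _ (List.getElem_mem h)
      · rw [List.getD_eq_default _ _ h]
        exact Nat.zero_le _
    have h3 : Nat.log 2 (6 * n + 3) ^ j ≤ 5 ^ j * Nat.log 2 n ^ j + 5 ^ j :=
      (Nat.pow_le_pow_left ((Nat.log_mono_right (by omega)).trans (log_bound n)) j).trans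
        (pow_bound _ _)
    have h4 : c' * Nat.log 2 (6 * n + 3) ^ j ≤ c' * (5 ^ j * Nat.log 2 n ^ j + 5 ^ j) :=
      Nat.mul_le_mul_left _ h3
    nlinarith [Nat.zero_le (c' * Nat.log 2 n ^ j), Nat.zero_le (Nat.log 2 n ^ j)]
  · have hlen : (oneHot (code x)).length = 6 * x.length + 3 := by
      rw [length_oneHot]
      simp [code]; ring
    have h1 : x ∈ {x | code x ∈ L} ↔ oneHot (code x) ∈ oneHot '' L := by
      constructor
      · intro hx; exact ⟨_, hx, rfl⟩
      · rintro ⟨w, hw, hwx⟩
        rw [oneHot_injective 3 hwx] at hw
        exact hw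
    rw [h1, hL, hlen]
    unfold Accepts
    rw [run_append, run_pre, run_append_junk _ _ _ (by
      rw [List.length_reverse, hlen]; exact hval _)]
    have h2 : run (C (6 * x.length + 3)) (oneHot (code x)).reverse ≠ [] := by
      apply run_ne_nil
      intro h
      have := congrArg List.length h
      rw [List.length_reverse, hlen] at this
      simp at this
    rw [List.head?_append_of_ne_nil _ h2]

end Pool.Agent.H31.Dag
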