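import Mathlib
import Pool.Agent.H80.Poly.More

/-!
# MP_ef6eae_lc: definitions

Labelled directed graphs and DAG reachability, the class P (Mathlib's Turing machines), Boolean
circuits of fan-in 2, deterministic logarithmic space (Turing machines with a read-only input tape,
finitely many work tapes and a write-only output), and logspace-uniform NC.
-/

set_option autoImplicit false

namespace Pool.Agent.H31.Dag

/-! ### DAG reachability -/

/-- A finite directed graph whose edges carry labels from the alphabet `Fin k`: the list of its
edges `(source, label, target)`. The vertices are natural numbers. -/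
abbrev LGraph (k : ℕ) : Type := List (ℕ × Fin k × ℕ)

/-- `Path E u w v`: some directed path from `u` to `v` has yield `w`. -/
inductive Path {k : ℕ} (E : LGraph k) : ℕ → List (Fin k) → ℕ → Prop
  | nil (u : ℕ) : Path E u [] u
  | cons {u v t : ℕ} {a : Fin k} {w : List (Fin k)} :
      (u, a, v) ∈ E → Path E v w t → Path E u (a :: w) t

/-- The graph has no directed cycle: the only path from a vertex to itself is the empty one. -/
def Acyclic {k : ℕ} (E : LGraph k) : Prop := ∀ (u : ℕ) (w : List (Fin k)), Path E u w u → w = []

/-- `L`-DAGREACH: the triples `(G, s, t)` with `G` acyclic such that some path from `s` to `t` has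
its yield in `L`. -/
def DagReach {k : ℕ} (L : Set (List (Fin k))) : Set (LGraph k × ℕ × ℕ) :=
  {I | Acyclic I.1 ∧ ∃ w ∈ L, Path I.1 I.2.1 w I.2.2}

/-! ### The class P -/

/-- The set `S` of objects encoded by `e` is in P: it is decided by a Turing machine (Mathlib's
`TM2ComputableInPolyTime`) in polynomial time. -/
def InP {α A : Type} (e : α → List A) (S : Set α) : Prop :=
  ∃ D : α → Bool, Nonempty (Turing.TM2ComputableInPolyTime e Computability.encodeBool D) ∧
    ∀ a, a ∈ S ↔ D a = true

/-- `L ∈ DAGREACH⁻¹(P)`, i.e. `L`-DAGREACH is in P. Instances are encoded as bit strings by
`BEnc.enc` (numbers in binary, self-delimiting pairs and lists). -/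
def DagReachInP {k : ℕ} (L : Set (List (Fin k))) : Prop :=
  InP (Pool.Agent.H80.Poly.BEnc.enc : LGraph k × ℕ × ℕ → List Bool) (DagReach L)

/-! ### Boolean circuits -/

/-- The gates of a Boolean circuit. The nodes (inputs first, then gates) are computed one after
another; an operand `i` of a gate denotes the node that stands `i + 1` places before the gate. -/
inductive Gate : Type
  | const (b : Bool)
  | not (i : ℕ)
  | and (i j : ℕ)
  | or (i j : ℕ)

/-- A circuit: its gates in the order of computation. The last gate is the output gate. -/
abbrev Circuit : Type := List Gate

/-- the value of a gate, given the values of the nodes before it (the latest first) -/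
def Gate.eval (v : List Bool) : Gate → Bool
  | .const b => b
  | .not i => !(v.getD i false)
  | .and i j => v.getD i false && v.getD j false
  | .or i j => v.getD i false || v.getD j false

/-- the depth of a gate, given the depths of the nodes before it (the latest first) -/
def Gate.depth (d : List ℕ) : Gate → ℕ
  | .const _ => 0
  | .not i => d.getD i 0 + 1
  | .and i j => max (d.getD i 0) (d.getD j 0) + 1
  | .or i j => max (d.getD i 0) (d.getD j 0) + 1

/-- the operands of a gate are among the `n` nodes before it -/
def Gate.Valid (n : ℕ) : Gate → Prop
  | .const _ => True
  | .not i => i < n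
  | .and i j => i < n ∧ j < n
  | .or i j => i < n ∧ j < n

/-- the values of all nodes (the latest first), given those of the inputs (the last first) -/
def run (C : Circuit) (v : List Bool) : List Bool := C.foldl (fun v g => g.eval v :: v) v

/-- the depths of all nodes (the latest first), given those of the inputs (the last first) -/
def depths (C : Circuit) (d : List ℕ) : List ℕ := C.foldl (fun d g => g.depth d :: d) d

/-- all operands in the circuit with `n` inputs refer to existing nodes -/
def Valid : Circuit → ℕ → Prop
  | [], _ => True
  | g :: C, n => g.Valid n ∧ Valid C (n + 1)

/-- the circuit accepts the input `x` -/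
def Accepts (C : Circuit) (x : List Bool) : Prop := (run C x.reverse).head? = some true

/-- the circuit with `n` inputs has depth at most `D` -/
def DepthLE (C : Circuit) (n D : ℕ) : Prop := ∀ d ∈ depths C (List.replicate n 0), d ≤ D

/-- The symbols used to describe circuits. -/
inductive Tok : Type
  | F | T | N | A | O | one | stop
  deriving DecidableEq

/-- the description of a gate: its type, then its operands in unary -/
def Gate.toks : Gate → List Tok
  | .const false => [Tok.F]
  | .const true => [Tok.T]
  | .not i => Tok.N :: (List.replicate i Tok.one ++ [Tok.stop])
  | .and i j => Tok.A :: (List.replicate i Tok.one ++ [Tok.stop] ++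
      List.replicate j Tok.one ++ [Tok.stop])
  | .or i j => Tok.O :: (List.replicate i Tok.one ++ [Tok.stop] ++
      List.replicate j Tok.one ++ [Tok.stop])

/-- the description of a circuit -/
def toks (C : Circuit) : List Tok := C.flatMap Gate.toks

/-! ### Logarithmic space -/

/-- head moves -/
inductive Move : Type
  | left | stay | right
  deriving DecidableEq

/-- the displacement of a head -/
def Move.toInt : Move → ℤ
  | .left => -1
  | .stay => 0
  | .right => 1

/-- what the head on the input tape reads: the left end marker, a bit, the right end marker -/
inductive InSym : Type
  | lend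
  | bit (b : Bool)
  | rend
  deriving DecidableEq

/-- A deterministic Turing machine with a two-way read-only input tape, work tapes indexed by the
finite type `K` and a write-only output tape with symbols from `O`. The transition function gets
the state and the scanned symbols. It is `none` when the machine halts; otherwise it gives the new
state, the move on the input tape, for each work tape the symbol written and the move, and
possibly an output symbol. -/
structure LogTM (O : Type) where
  /-- states -/
  Q : Type
  /-- work tapes -/
  K : Type
  /-- work tape symbols -/
  Γ : Type
  [finQ : Finite Q]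
  [finK : Finite K]
  [finΓ : Finite Γ]
  /-- the blank symbol -/
  blank : Γ
  /-- the initial state -/
  start : Q
  /-- the transition function -/
  δ : Q → InSym → (K → Γ) → Option (Q × Move × (K → Γ × Move) × Option O)

namespace LogTM

variable {O : Type} (M : LogTM O)

/-- A configuration: the state, the position of the input head (`0` is the left end marker, `i + 1`
the `i`-th input bit), the contents of the work tapes, the positions of their heads, and the
output written so far. -/
structure Cfg where
  /-- state -/
  q : M.Q
  /-- position of the input head -/
  pos : ℕ
  /-- contents of the work tapes -/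
  tape : M.K → ℤ → M.Γ
  /-- positions of the heads of the work tapes -/
  head : M.K → ℤ
  /-- output -/
  out : List O

/-- the initial configuration -/
def init : M.Cfg := ⟨M.start, 0, fun _ _ => M.blank, fun _ => 0, []⟩

/-- the symbol on position `i` of the input tape with input `w` -/
def _root_.Pool.Agent.H31.Dag.inSym (w : List Bool) : ℕ → InSym
  | 0 => InSym.lend
  | i + 1 => match w[i]? with
    | some b => InSym.bit b
    | none => InSym.rend

/-- the position of the input head after a move; the head does not leave the marked area -/
def _root_.Pool.Agent.H31.Dag.movePos (n pos : ℕ) : Move → ℕ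
  | .left => pos - 1
  | .stay => pos
  | .right => min (pos + 1) (n + 1)

/-- one step of the computation on input `w`; `none` when the machine has halted -/
def step (w : List Bool) (c : M.Cfg) : Option M.Cfg :=
  (M.δ c.q (inSym w c.pos) (fun k => c.tape k (c.head k))).map fun r =>
    { q := r.1
      pos := movePos w.length c.pos r.2.1
      tape := fun k => Function.update (c.tape k) (c.head k) (r.2.2.1 k).1
      head := fun k => c.head k + (r.2.2.1 k).2.toInt
      out := c.out ++ r.2.2.2.toList }

/-- all work tape heads are within distance `s` of their initial cells -/
def Within (s : ℕ) (c : M.Cfg) : Prop := ∀ k, |c.head k| ≤ s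

/-- On input `w` the machine halts with output `y`, and its work tape heads stay within distance
`s` of their initial cells. -/
def Computes (w : List Bool) (s : ℕ) (y : List O) : Prop :=
  ∃ c : M.Cfg, Relation.ReflTransGen (fun a b => M.step w a = some b ∧ M.Within s b) M.init c ∧
    M.step w c = none ∧ c.out = y

end LogTM

/-- The function `f` is computable in logarithmic space from `1ⁿ`. -/
def Logspace {O : Type} (f : ℕ → List O) : Prop :=
  ∃ (M : LogTM O) (c : ℕ), ∀ n, M.Computes (List.replicate n true) (c * Nat.log 2 n + c) (f n)

/-! ### The class NC -/

/-- `NC^j`: languages over `{0,1}` decided by logspace-uniform families of fan-in-2 Boolean circuits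
of polynomial size and depth `O(log^j n)`. -/
def InNCj (j : ℕ) (L : Set (List Bool)) : Prop :=
  ∃ C : ℕ → Circuit,
    (∀ n, Valid (C n) n) ∧
    Logspace (fun n => toks (C n)) ∧
    (∃ p : Polynomial ℕ, ∀ n, (C n).length ≤ p.eval n) ∧
    (∃ c : ℕ, ∀ n, DepthLE (C n) n (c * Nat.log 2 n ^ j + c)) ∧
    ∀ x : List Bool, x ∈ L ↔ Accepts (C x.length) x

/-- The class NC, for languages over `{0,1}`. -/
def InNC (L : Set (List Bool)) : Prop := ∃ j, InNCj j L

/-- The encoding of words over `Fin k` by bit strings: the letter `a` becomes the block of `k` bits
whose only `1` is at place `a`. -/
def oneHot {k : ℕ} (w : List (Fin k)) : List Bool :=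
  w.flatMap fun a => List.ofFn fun b => decide (b = a)

/-- The class NC for languages over the alphabet `Fin k`. -/
def InNCk {k : ℕ} (L : Set (List (Fin k))) : Prop := InNC (oneHot '' L)

end Pool.Agent.H31.Dag
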