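import Pool.Agent.H80.Poly.More
import Pool.Agent.H72.NP.Sim2

/-!
# Decision problems decided by Mathlib's machines in polynomial time are `PolyTime`
-/

set_option autoImplicit false

namespace Pool.Agent.H31.Dag.TM

open Pool.Agent.H80.Poly Pool.Agent.H72.NP Turing Computability

variable (M : SM)

/-- configurations as data -/
abbrev Dt : Type := Fin M.nq × List (List (Fin M.na))

/-- the top of stack `r` -/
def top {A : Type} (S : List (List A)) (r : ℕ) : Option A := ((S.drop r).head?.getD []).head?

/-- replace stack `r` -/
def repl {A : Type} (S : List (List A)) (r : ℕ) (f : List A → List A) : List (List A) :=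
  S.take r ++ (f ((S.drop r).head?.getD []) :: S.drop (r + 1))

/-- one step on data -/
def dstep (z : Dt M) : Dt M :=
  (M.nx z.1 (top z.2 (M.rd z.1)), repl z.2 (M.rd z.1) (M.op z.1).act)

/-- a configuration as data -/
def conv (c : M.Cf) : Dt M := (c.q, List.ofFn c.stk)

theorem drop_ofFn_head {A : Type} {n : ℕ} (f : Fin n → List A) (r : Fin n) :
    ((List.ofFn f).drop r).head?.getD [] = f r := by
  rw [List.head?_drop]
  simp

theorem conv_step (c : M.Cf) : conv M (M.step c) = dstep M (conv M c) := by
  unfold conv dstep SM.step top repl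
  simp only [drop_ofFn_head]
  congr 1
  apply List.ext_getElem
  · simp
    have := (M.rd c.q).2
    omega
  · intro i h1 h2
    rw [List.length_ofFn] at h1
    simp only [List.getElem_ofFn]
    rcases Nat.lt_trichotomy i (M.rd c.q) with h | h | h
    · rw [Function.update_of_ne (by intro h'; rw [Fin.ext_iff] at h'; simp at h'; omega)]
      rw [List.getElem_append_left (by simp; omega)]
      simp
    · have h' : (⟨i, h1⟩ : Fin M.nk) = M.rd c.q := Fin.ext h
      rw [h', Function.update_self]
      rw [List.getElem_append_right (by simp; omega)]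
      simp [h]
    · rw [Function.update_of_ne (by intro h'; rw [Fin.ext_iff] at h'; simp at h'; omega)]
      rw [List.getElem_append_right (by simp; omega)]
      have h3 : min (↑(M.rd c.q)) M.nk = (M.rd c.q : ℕ) := by
        have := (M.rd c.q).2
        omega
      obtain ⟨j, hj⟩ : ∃ j, i = (M.rd c.q : ℕ) + 1 + j := ⟨i - (M.rd c.q) - 1, by omega⟩
      subst hj
      simp only [List.length_take, List.length_ofFn, h3]
      have h4 : (M.rd c.q : ℕ) + 1 + j - (M.rd c.q : ℕ) = j + 1 := by omega
      simp only [h4, List.getElem_cons_succ, List.getElem_drop, List.getElem_ofFn]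

theorem conv_iter (c : M.Cf) (n : ℕ) : conv M (M.step^[n] c) = (dstep M)^[n] (conv M c) := by
  induction n with
  | zero => rfl
  | succ n ih => rw [Function.iterate_succ_apply', conv_step, ih, Function.iterate_succ_apply']

section
variable {M}

theorem poly_top {α A : Type} [BEnc α] [BEnc A] {f : α → List (List A)} (hf : PolyTime f) (r : ℕ) :
    PolyTime (fun a => top (f a) r) := by
  unfold top
  exact ((hf.drop (PolyTime.const r)).head?.getD (PolyTime.const [])).head?

theorem poly_repl {α A : Type} [BEnc α] [BEnc A] {f : α → List (List A)} (hf : PolyTime f)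
    (r : ℕ) {g : List A → List A} (hg : PolyTime g) : PolyTime (fun a => repl (f a) r g) := by
  unfold repl
  exact (hf.take (PolyTime.const r)).append
    ((hg.comp ((hf.drop (PolyTime.const r)).head?.getD (PolyTime.const []))).cons
      (hf.drop (PolyTime.const (r + 1))))

theorem poly_act {na : ℕ} (o : Op na) : PolyTime (o.act : List (Fin na) → List (Fin na)) := by
  cases o with
  | keep => exact PolyTime.id
  | push a => exact (PolyTime.const a).cons PolyTime.id
  | pop => exact PolyTime.tail PolyTime.id

theorem poly_dstep (M : SM) : PolyTime (dstep M) := by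
  have h : PolyTime (fun z : Fin M.nq × List (List (Fin M.na)) =>
      ((M.nx z.1 (top z.2 (M.rd z.1)), repl z.2 (M.rd z.1) (M.op z.1).act) : Dt M)) := by
    apply PolyTime.finCase (f := fun z : Fin M.nq × List (List (Fin M.na)) =>
      ((M.nx z.1 (top z.2 (M.rd z.1)), repl z.2 (M.rd z.1) (M.op z.1).act) : Dt M))
    intro q
    simp only
    refine PolyTime.pair ?_ (poly_repl PolyTime.id _ (poly_act _))
    exact (PolyTime.ofFinite (fun o : Option (Fin M.na) => M.nx q o)).comp
      (poly_top PolyTime.id _)
  exact h

theorem size_repl {na : ℕ} (S : List (List (Fin na))) (r : ℕ) (o : Op na) (hr : r < S.length)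
    (C : ℕ) (hC : ∀ a : Fin na, size a ≤ C) :
    size (repl S r o.act) ≤ size S + 2 * (2 * C + 1) := by
  unfold repl
  obtain ⟨s, hs⟩ : ∃ s, S.drop r = s :: S.drop (r + 1) :=
    ⟨S[r], List.drop_eq_getElem_cons hr⟩
  have h1 : size S = size (S.take r) + size (S.drop r) := by
    rw [← size_append, List.take_append_drop]
  rw [size_append, size_cons, h1, hs, size_cons]
  simp only [List.head?_cons, Option.getD_some]
  have h2 : size (o.act s) ≤ size s + (2 * C + 1) := by
    cases o with
    | keep => simp only [Op.act]; omega
    | push a => simp only [Op.act]; rw [size_cons]; have := hC a; omega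
    | pop =>
      simp only [Op.act]
      have := size_drop_le s 1
      rw [List.drop_one] at this
      omega
  omega

theorem length_repl {na : ℕ} (S : List (List (Fin na))) (r : ℕ) (f : List (Fin na) → List (Fin na))
    (hr : r < S.length) : (repl S r f).length = S.length := by
  unfold repl
  simp
  omega

theorem size_iter (M : SM) (z : Dt M) (hz : z.2.length = M.nk) (C : ℕ)
    (hC : ∀ a : Fin M.na, size a ≤ C) (hC' : ∀ a : Fin M.nq, size a ≤ C) (n : ℕ) :
    ((dstep M)^[n] z).2.length = M.nk ∧
    size ((dstep M)^[n] z) ≤ size z + n * (2 * (2 * C + 1)) + 2 * C := by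
  have key : ((dstep M)^[n] z).2.length = M.nk ∧
      size ((dstep M)^[n] z).2 ≤ size z.2 + n * (2 * (2 * C + 1)) := by
    induction n with
    | zero => simpa using hz
    | succ n ih =>
      obtain ⟨h1, h2⟩ := ih
      rw [Function.iterate_succ_apply']
      set y := (dstep M)^[n] z
      have hr : (M.rd y.1 : ℕ) < y.2.length := by rw [h1]; exact (M.rd y.1).2
      constructor
      · show (repl y.2 _ _).length = _
        rw [length_repl _ _ _ hr, h1]
      · show size (repl y.2 _ _) ≤ _
        have := size_repl y.2 (M.rd y.1) (M.op y.1) hr C hC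
        have h3 : (n + 1) * (2 * (2 * C + 1)) = n * (2 * (2 * C + 1)) + 2 * (2 * C + 1) := by ring
        omega
  refine ⟨key.1, ?_⟩
  rw [size_prod, size_prod]
  have := hC' ((dstep M)^[n] z).1
  omega

end

theorem exists_size_bound (n : ℕ) : ∃ C, ∀ a : Fin n, size a ≤ C := by
  refine ⟨n, fun a => ?_⟩
  show size (a : ℕ) ≤ n
  exact (size_nat_le_self _).trans a.2.le

/-- **From Mathlib's machines to `PolyTime`.** -/
theorem polyTime_of_tm2 {α : Type} [BEnc α] {D : α → Bool}
    (h : Nonempty (TM2ComputableInPolyTime (enc : α → List Bool) encodeBool D)) : PolyTime D := by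
  obtain ⟨⟨⟨tm, ia, oa⟩, time, hout⟩⟩ := h
  set good : tm.Γ tm.k₁ := oa.symm true with hgood
  set M : SM := Sim.smOf tm good with hM
  set T : Polynomial ℕ := Polynomial.C (Sim.costB tm) * time + 1 with hT
  set ex : Bool → Fin M.na := fun b => Sim.symSM tm good (ia.symm b) with hex
  have key : ∀ a, D a = true ↔ (M.run ((enc a).map ex) (T.eval (size a))).q = M.acc := by
    intro a
    have h3 := hout a
    have e1 : List.map oa.invFun (encodeBool (D a)) = [oa.symm (D a)] := rfl
    rw [e1] at h3
    have h4 := Sim.smOf_run tm good _ _ _ h3 (T.eval (size a)) (by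
      rw [hT]
      simp only [Polynomial.eval_add, Polynomial.eval_mul, Polynomial.eval_C,
        Polynomial.eval_one]
      exact le_rfl)
    have e2 : List.map (Sim.symSM tm good) (List.map ia.invFun (enc a)) = (enc a).map ex := by
      rw [List.map_map]; rfl
    rw [e2] at h4
    rw [h4, hgood]
    exact ⟨fun h => by rw [h], fun h => oa.symm.injective h⟩
  -- the initial data
  have hbits : PolyTime (fun a : α => (strToList (toStr a)).map ex) :=
    (PolyTime.strToList'.comp PolyTime.toStr').map (g := fun w : α × Bool => ex w.2)
      ((PolyTime.boolFun ex).comp PolyTime.snd')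
  have hinit : PolyTime (fun a : α => conv M (M.init ((enc a).map ex))) := by
    have h1 : PolyTime (fun a : α => ((M.start,
        List.replicate M.inp.val [] ++ ((strToList (toStr a)).map ex ::
          List.replicate (M.nk - M.inp.val - 1) [])) : Dt M)) :=
      (PolyTime.const M.start).pair ((PolyTime.const _).append (hbits.cons (PolyTime.const _)))
    refine h1.congr fun a => ?_
    unfold conv SM.init
    congr 1
    apply List.ext_getElem
    · simp
      have := M.inp.2
      omega
    · intro i h1 h2
      rw [List.length_ofFn] at h2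
      simp only [List.getElem_ofFn]
      rcases Nat.lt_trichotomy i M.inp with h | h | h
      · rw [Function.update_of_ne (by intro h'; rw [Fin.ext_iff] at h'; simp at h'; omega)]
        rw [List.getElem_append_left (by simpa using h)]
        simp
      · have h' : (⟨i, h2⟩ : Fin M.nk) = M.inp := Fin.ext h
        rw [h', Function.update_self]
        rw [List.getElem_append_right (by simp; omega)]
        simp [h]
        rfl
      · rw [Function.update_of_ne (by intro h'; rw [Fin.ext_iff] at h'; simp at h'; omega)]
        rw [List.getElem_append_right (by simp; omega)]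
        obtain ⟨j, hj⟩ : ∃ j, i = (M.inp : ℕ) + 1 + j := ⟨i - M.inp - 1, by omega⟩
        subst hj
        have h4 : (M.inp : ℕ) + 1 + j - (M.inp : ℕ) = j + 1 := by omega
        simp [h4]
  have htime : PolyTime (fun a : α => toStr (UNat.ofNat (T.eval (size a)))) :=
    PolyTime.toStr'.comp ((PolyTime.unatEval T (PolyTime.sizeU (α := α))))
  obtain ⟨C1, hC1⟩ := exists_size_bound M.na
  obtain ⟨C2, hC2⟩ := exists_size_bound M.nq
  obtain ⟨bi, hbi, hbis⟩ := hinit.size_le
  have hlen : ∀ a : α, (enc (toStr (UNat.ofNat (T.eval (size a))))).length = T.eval (size a) := by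
    intro a
    exact size_unat _
  have hiter := PolyTime.iterate (h := dstep M) htime hinit (poly_dstep M)
    ⟨fun n => bi n + T.eval n * (2 * (2 * (max C1 C2) + 1)) + 2 * max C1 C2,
      ((hbi.add ((PB.eval T).mul (PB.const _))).add (PB.const _)), by
      intro a i hi
      rw [hlen] at hi
      have h1 := (size_iter M (conv M (M.init ((enc a).map ex))) (by simp [conv]) (max C1 C2)
        (fun a => (hC1 a).trans (le_max_left _ _)) (fun a => (hC2 a).trans (le_max_right _ _)) i).2
      have h2 := hbis a
      have h3 : i * (2 * (2 * (max C1 C2) + 1)) ≤ T.eval (size a) * (2 * (2 * (max C1 C2) + 1)) :=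
        Nat.mul_le_mul_right _ hi
      simp only at h2 ⊢
      omega⟩
  have hfin : PolyTime (fun a : α => decide (((dstep M)^[(enc (toStr (UNat.ofNat
      (T.eval (size a))))).length] (conv M (M.init ((enc a).map ex)))).1 = M.acc)) :=
    PolyTime.eq hiter.fst (PolyTime.const _)
  refine hfin.congr fun a => ?_
  rw [hlen, ← conv_iter]
  have h5 := key a
  have h6 : (conv M (M.step^[T.eval (size a)] (M.init ((enc a).map ex)))).1 =
      (M.run ((enc a).map ex) (T.eval (size a))).q := rfl
  rw [h6]
  rw [Bool.eq_iff_iff, decide_eq_true_eq]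
  exact h5.symm

end Pool.Agent.H31.Dag.TM
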