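import Pool.Agent.H31.Dag.Reach
import Pool.Agent.H31.Dag.TM

/-!
# `L_K`-DAGREACH is in P for `K` in P
-/

set_option autoImplicit false

namespace Pool.Agent.H31.Dag

open Pool.Agent.H80.Poly

/-! ### acyclicity -/

variable {k : ℕ}

/-- test of acyclicity -/
def acyc (E : LGraph k) : Bool := E.all fun e => !(look (clo E e.2.2) e.1).isSome

theorem acyc_iff (E : LGraph k) : acyc E = true ↔ Acyclic E := by
  unfold acyc
  rw [List.all_eq_true]
  constructor
  · intro h u w hw
    cases hw with
    | nil u => rfl
    | @cons u v t a w he h' =>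
      have h1 := h _ he
      obtain ⟨w', hw'⟩ := exists_look_clo h'
      simp [hw'] at h1
  · intro h e he
    rw [Bool.not_eq_true', ← Bool.not_eq_true]
    intro h1
    obtain ⟨w, hw⟩ := Option.isSome_iff_exists.1 h1
    have h2 := h e.1 (e.2.1 :: w) (Path.cons he (look_clo hw))
    simp at h2

/-! ### polynomial time -/

theorem poly_look {α : Type} [BEnc α] {S : α → List (ℕ × List (Fin k))} {u : α → ℕ}
    (hS : PolyTime S) (hu : PolyTime u) : PolyTime (fun a => look (S a) (u a)) := by
  unfold look
  have hw : PolyTime (fun w : α × (ℕ × List (Fin k)) => w) := PolyTime.id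
  have h1 := PolyTime.filter hS (g := fun w : α × (ℕ × List (Fin k)) => decide (w.2.1 = u w.1))
    (PolyTime.eq hw.snd.fst (hu.comp hw.fst))
  have hv : PolyTime (fun w : (ℕ × List (Fin k)) × α => w) := PolyTime.id
  exact PolyTime.optMap (g := fun w : (ℕ × List (Fin k)) × α => w.1.2) h1.head? hv.fst.snd

theorem poly_relax {α : Type} [BEnc α] {S : α → List (ℕ × List (Fin k))}
    {e : α → ℕ × Fin k × ℕ} (hS : PolyTime S) (he : PolyTime e) :
    PolyTime (fun a => relax (S a) (e a)) := by
  have hv : PolyTime (fun w : List (Fin k) × α => w) := PolyTime.id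
  have h1 : PolyTime (fun w : List (Fin k) × α =>
      bif (look (S w.2) (e w.2).2.2).isSome then S w.2 else
        ((e w.2).2.2, w.1 ++ [(e w.2).2.1]) :: S w.2) := by
    refine PolyTime.cond (poly_look (hS.comp hv.snd) (he.comp hv.snd).snd.snd).isSome
      (hS.comp hv.snd) ?_
    exact ((he.comp hv.snd).snd.snd.pair (hv.fst.append
      ((he.comp hv.snd).snd.fst.cons (PolyTime.const [])))).cons (hS.comp hv.snd)
  exact PolyTime.optElim (poly_look hS he.fst) hS h1

theorem poly_clo {α : Type} [BEnc α] {E : α → LGraph k} {s : α → ℕ}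
    (hE : PolyTime E) (hs : PolyTime s) : PolyTime (fun a => clo (E a) (s a)) := by
  unfold clo
  obtain ⟨C, hC⟩ := TM.exists_size_bound k
  obtain ⟨bE, hbE, hbEs⟩ := hE.size_le
  obtain ⟨bs, hbs, hbss⟩ := hs.size_le
  have hl : PolyTime (fun a => (E a).flatMap fun _ => E a) :=
    PolyTime.flatMap hE (g := fun w : α × (ℕ × Fin k × ℕ) => E w.1) (hE.comp PolyTime.fst')
  have hf : PolyTime (fun a => [(s a, ([] : List (Fin k)))]) :=
    (hs.pair (PolyTime.const [])).cons (PolyTime.const [])
  have hw : PolyTime (fun w : α × List (ℕ × List (Fin k)) × (ℕ × Fin k × ℕ) => w) := PolyTime.id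
  refine PolyTime.foldl_inv (σ := List (ℕ × List (Fin k))) hl hf
    (h := fun w : α × List (ℕ × List (Fin k)) × (ℕ × Fin k × ℕ) => relax w.2.1 w.2.2)
    (poly_relax hw.snd.fst hw.snd.snd) (fun a S => Inv (E a) (s a) S)
    (fun a => inv_init _ _) ?_ ?_
  · intro a S e he hI
    rw [List.mem_flatMap] at he
    exact inv_relax hI he.choose_spec.2
  · refine ⟨fun n => (bE n + 1) * (2 * (2 * (bE n + bs n) + 1 +
      (bE n + 1) * (2 * C + 1)) + 1), ?_, ?_⟩
    · exact (hbE.add (PB.const 1)).mul (((PB.const 2).mul ((((PB.const 2).mul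
        (hbE.add hbs)).add (PB.const 1)).add ((hbE.add (PB.const 1)).mul (PB.const _)))).add
          (PB.const 1))
    · intro a S hI
      obtain ⟨g1, g2, g3, _⟩ := hI
      have h1 := hbEs a
      have h2 := hbss a
      have hlenE : (E a).length ≤ bE (size a) := (length_le_size _).trans h1
      -- number of entries
      have hlen : S.length ≤ bE (size a) + 1 := by
        have h3 : (S.map Prod.fst).toFinset ⊆ (s a :: (E a).map fun e => e.2.2).toFinset := by
          intro v hv
          rw [List.mem_toFinset] at hv ⊢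
          exact g2 v hv
        have h4 := Finset.card_le_card h3
        rw [List.toFinset_card_of_nodup g1, List.length_map] at h4
        refine h4.trans ((List.toFinset_card_le _).trans ?_)
        simpa using hlenE
      have hsz : ∀ p ∈ S, size p ≤ 2 * (bE (size a) + bs (size a)) + 1 +
          (bE (size a) + 1) * (2 * C + 1) := by
        intro p hp
        rw [size_prod]
        obtain ⟨_, k2⟩ := g3 p hp
        have hv : size p.1 ≤ bE (size a) + bs (size a) := by
          have := g2 p.1 (List.mem_map.2 ⟨p, hp, rfl⟩)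
          rw [List.mem_cons, List.mem_map] at this
          rcases this with h | ⟨e, he, h⟩
          · rw [h]; omega
          · rw [← h]
            have h5 := size_of_mem he
            rw [size_prod, size_prod] at h5
            omega
        have hword : size p.2 ≤ (bE (size a) + 1) * (2 * C + 1) := by
          have h5 := size_list_le (c := C) p.2 (fun x _ => hC x)
          refine h5.trans ?_
          exact Nat.mul_le_mul_right _ (k2.trans hlen)
        omega
      refine (size_list_le S hsz).trans ?_
      exact Nat.mul_le_mul_right _ hlen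

theorem poly_rev {α : Type} [BEnc α] {E : α → LGraph k} (hE : PolyTime E) :
    PolyTime (fun a => rev (E a)) := by
  unfold rev
  have hw : PolyTime (fun w : α × (ℕ × Fin k × ℕ) => w) := PolyTime.id
  exact hE.map (g := fun w : α × (ℕ × Fin k × ℕ) => (w.2.2.2, w.2.2.1, w.2.1))
    (hw.snd.snd.snd.pair (hw.snd.snd.fst.pair hw.snd.fst))

theorem poly_acyc : PolyTime (fun E : LGraph k => acyc E) := by
  unfold acyc
  have hw : PolyTime (fun w : LGraph k × (ℕ × Fin k × ℕ) => w) := PolyTime.id
  exact PolyTime.all (g := fun w : LGraph k × (ℕ × Fin k × ℕ) =>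
    !(look (clo w.1 w.2.2.2) w.2.1).isSome) PolyTime.id
    (PolyTime.not (poly_look (poly_clo hw.fst hw.snd.snd.snd) hw.snd.fst).isSome)

theorem poly_canon {α : Type} [BEnc α] {E : α → LGraph k} {s t : α → ℕ}
    (hE : PolyTime E) (hs : PolyTime s) (ht : PolyTime t) :
    PolyTime (fun a => canon (E a) (s a) (t a)) := by
  unfold canon
  refine PolyTime.append ?_ ?_
  · have hw : PolyTime (fun w : α × (ℕ × List (Fin k)) => w) := PolyTime.id
    refine PolyTime.filterMap (g := fun w : α × (ℕ × List (Fin k)) =>
      (look (clo (rev (E w.1)) (t w.1)) w.2.1).map fun u => w.2.2 ++ u.reverse)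
      (poly_clo hE hs) ?_
    have hv : PolyTime (fun v : List (Fin k) × (α × (ℕ × List (Fin k))) => v) := PolyTime.id
    exact PolyTime.optMap (g := fun v : List (Fin k) × (α × (ℕ × List (Fin k))) =>
      v.2.2.2 ++ v.1.reverse)
      (poly_look (poly_clo (poly_rev (hE.comp hw.fst)) (ht.comp hw.fst)) hw.snd.fst)
      (hv.snd.snd.snd.append hv.fst.reverse)
  · have hw : PolyTime (fun w : α × (ℕ × Fin k × ℕ) => w) := PolyTime.id
    refine PolyTime.filterMap (g := fun w : α × (ℕ × Fin k × ℕ) =>
      (look (clo (E w.1) (s w.1)) w.2.1).bind fun v =>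
      (look (clo (rev (E w.1)) (t w.1)) w.2.2.2).map fun u => v ++ w.2.2.1 :: u.reverse) hE ?_
    have hv : PolyTime (fun v : List (Fin k) × (α × (ℕ × Fin k × ℕ)) => v) := PolyTime.id
    refine PolyTime.optBind (g := fun v : List (Fin k) × (α × (ℕ × Fin k × ℕ)) =>
      (look (clo (rev (E v.2.1)) (t v.2.1)) v.2.2.2.2).map fun u => v.1 ++ v.2.2.2.1 :: u.reverse)
      (poly_look (poly_clo (hE.comp hw.fst) (hs.comp hw.fst)) hw.snd.fst) ?_
    have hx : PolyTime (fun x : List (Fin k) × (List (Fin k) × (α × (ℕ × Fin k × ℕ))) => x) :=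
      PolyTime.id
    exact PolyTime.optMap (g := fun x : List (Fin k) × (List (Fin k) × (α × (ℕ × Fin k × ℕ))) =>
      x.2.1 ++ x.2.2.2.2.1 :: x.1.reverse)
      (poly_look (poly_clo (poly_rev (hE.comp hv.snd.fst)) (ht.comp hv.snd.fst))
        hv.snd.snd.snd.snd)
      (hx.snd.fst.append (hx.snd.snd.snd.snd.fst.cons hx.fst.reverse))

/-! ### the decision procedure -/

/-- the only candidate for `x` with `code x = w` -/
def uncode (w : List (Fin 3)) : List Bool :=
  (w.take (w.findIdx fun a => decide (a = 2))).map fun a => decide (a = 1)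

theorem uncode_code (x : List Bool) : uncode (code x) = x := by
  unfold uncode
  have h1 : (code x).findIdx (fun a => decide (a = 2)) = x.length := by
    unfold code
    rw [List.findIdx_append]
    have h2 : (x.map lt).findIdx (fun a => decide (a = 2)) = (x.map lt).length := by
      rw [List.findIdx_eq_length]
      intro a ha
      rw [decide_eq_false_iff_not]
      rintro rfl
      exact two_notMem_map x ha
    rw [h2, if_neg (lt_irrefl _)]
    simp [List.findIdx_cons]
  rw [h1]
  unfold code
  rw [List.take_append_of_le_length (by simp), List.take_of_length_le (by simp), List.map_map]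
  conv_rhs => rw [← List.map_id x]
  apply List.map_congr_left
  intro b _
  cases b <;> rfl

/-- membership in `L_K` -/
def memLK (DK : List Bool → Bool) (w : List (Fin 3)) : Bool :=
  !(decide (code (uncode w) = w)) || DK (uncode w)

theorem memLK_iff {K : Set (List Bool)} {DK : List Bool → Bool} (h : ∀ x, x ∈ K ↔ DK x = true)
    (w : List (Fin 3)) : memLK DK w = true ↔ w ∈ LK K := by
  unfold memLK
  rw [Bool.or_eq_true, Bool.not_eq_true', decide_eq_false_iff_not]
  constructor
  · rintro (h1 | h1) x hx
    · exact absurd (by rw [← hx, uncode_code]) h1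
    · rw [h, ← h1, ← hx, uncode_code]
  · intro h1
    by_cases h2 : code (uncode w) = w
    · right; exact (h _).1 (h1 _ h2)
    · left; exact h2

/-- bit strings as `Str` -/
theorem poly_DK {DK : List Bool → Bool} (h : PolyTime (fun s : Str => DK s)) :
    PolyTime (fun x : List Bool => DK x) :=
  h.comp PolyTime.listToStr'

theorem poly_memLK {DK : List Bool → Bool} (h : PolyTime (fun s : Str => DK s)) :
    PolyTime (memLK DK) := by
  have h1 : PolyTime uncode := by
    unfold uncode
    refine PolyTime.map (g := fun w : List (Fin 3) × Fin 3 => decide (w.2 = 1)) ?_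
      (PolyTime.eq PolyTime.snd' (PolyTime.const 1))
    refine PolyTime.take PolyTime.id ?_
    exact PolyTime.findIdx (g := fun w : List (Fin 3) × Fin 3 => decide (w.2 = 2)) PolyTime.id
      (PolyTime.eq PolyTime.snd' (PolyTime.const 2))
  have h2 : PolyTime (code : List Bool → List (Fin 3)) := by
    unfold code
    have h3 : PolyTime (fun x : List Bool => x.map lt) :=
      PolyTime.map (g := fun w : List Bool × Bool => lt w.2) PolyTime.id
        ((PolyTime.boolFun lt).comp PolyTime.snd')
    exact h3.append ((PolyTime.const 2).cons h3)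
  exact PolyTime.or (PolyTime.not (PolyTime.eq (h2.comp h1) PolyTime.id)) ((poly_DK h).comp h1)

/-- **`L_K`-DAGREACH is in P if `K` is.** -/
theorem dagReachInP_LK {K : Set (List Bool)} (hK : InP (id : List Bool → List Bool) K) :
    DagReachInP (LK K) := by
  obtain ⟨DK, hDK, hK⟩ := hK
  have h1 : PolyTime (fun s : Str => DK s) := TM.polyTime_of_tm2 (α := Str) hDK
  refine ⟨fun I : LGraph 3 × ℕ × ℕ => acyc I.1 && (canon I.1 I.2.1 I.2.2).any (memLK DK), ?_, ?_⟩
  · have hw : PolyTime (fun w : LGraph 3 × ℕ × ℕ => w) := PolyTime.id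
    have h2 : PolyTime (fun I : LGraph 3 × ℕ × ℕ =>
        acyc I.1 && (canon I.1 I.2.1 I.2.2).any (memLK DK)) :=
      PolyTime.and (poly_acyc.comp hw.fst)
        (PolyTime.any (g := fun w : (LGraph 3 × ℕ × ℕ) × List (Fin 3) => memLK DK w.2)
          (poly_canon hw.fst hw.snd.fst hw.snd.snd) ((poly_memLK h1).comp PolyTime.snd'))
    exact h2.tm2
  · rintro ⟨E, s, t⟩
    show (Acyclic E ∧ ∃ w ∈ LK K, Path E s w t) ↔ _
    rw [Bool.and_eq_true, acyc_iff, List.any_eq_true]
    constructor
    · rintro ⟨hE, h⟩
      refine ⟨hE, ?_⟩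
      obtain ⟨w, h3, h4⟩ := (reach_iff K hE s t).1 h
      exact ⟨w, h3, (memLK_iff hK w).2 h4⟩
    · rintro ⟨hE, w, h3, h4⟩
      exact ⟨hE, (reach_iff K hE s t).2 ⟨w, h3, (memLK_iff hK w).1 h4⟩⟩

end Pool.Agent.H31.Dag
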