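import Pool.Agent.H31.Dag.CM

/-!
# The machine that writes the circuits for `K` from a machine that writes the circuits for `L_K`
-/

set_option autoImplicit false

namespace Pool.Agent.H31.Dag

open Relation

/-- states of the first phase -/
inductive P1 : Type
  | s0 | s1 | s7 | s8 | s9
  | s2 (f : Bool) | e1 (f : Bool) | e2 (f : Bool) | e3 (f : Bool) | e4 (f : Bool)
  | o1 (f : Bool) | o2 (f : Bool) | o3 (f : Bool) | o4 (f : Bool)

instance : Finite P1 := by
  refine Finite.of_injective (β := Fin 14 × Bool)
    (fun m => match m with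
      | .s0 => (0, true) | .s1 => (1, true) | .s7 => (2, true) | .s8 => (3, true)
      | .s9 => (4, true) | .s2 f => (5, f) | .e1 f => (6, f) | .e2 f => (7, f)
      | .e3 f => (8, f) | .e4 f => (9, f) | .o1 f => (10, f) | .o2 f => (11, f)
      | .o3 f => (12, f) | .o4 f => (13, f)) ?_
  intro a b h
  cases a <;> cases b <;> simp_all

/-- states of the second phase -/
inductive P2 : Type
  | sim | mvL | mvL2 | mvR | mvR2

instance : Finite P2 := by
  refine Finite.of_injective (β := Fin 5)
    (fun m => match m with
      | .sim => 0 | .mvL => 1 | .mvL2 => 2 | .mvR => 3 | .mvR2 => 4) ?_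
  intro a b h
  cases a <;> cases b <;> simp_all

/-- first phase; the counters are `false` (A) and `true` (B) -/
def p1δ : P1 → InSym → Bool → Bool → Option P1 × Move × Option Tok × Option (Bool × Bool)
  | .s0, .lend, _, _ => (some .s0, .right, none, none)
  | .s0, .bit _, _, _ => (some .s0, .right, none, some (false, true))
  | .s0, .rend, _, _ => (some .s1, .stay, none, none)
  | .s1, .lend, _, _ => (some (.s2 false), .right, none, none)
  | .s1, .bit _, _, _ => (some .s1, .left, none, none)
  | .s1, .rend, _, _ => (some .s1, .left, none, none)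
  | .s2 f, .bit _, _, _ => (some (.e2 f), .stay, some .N, some (false, false))
  | .s2 false, _, _, _ => (some .s7, .stay, some .F, some (false, true))
  | .s2 true, _, _, _ => (none, .stay, none, some (false, true))
  | .e1 f, _, false, _ => (some (.e2 f), .stay, some .one, some (false, false))
  | .e1 f, _, true, _ => (some (.e3 f), .stay, none, none)
  | .e2 f, _, _, _ => (some (.e1 f), .stay, none, some (true, true))
  | .e3 f, _, _, false => (some (.e4 f), .stay, none, some (true, false))
  | .e3 f, _, _, true => (some (.o1 f), .stay, some .stop, none)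
  | .e4 f, _, _, _ => (some (.e3 f), .stay, none, some (false, true))
  | .o1 f, _, _, _ => (some (.o2 f), .stay, some .N, none)
  | .o2 f, _, _, _ => (some (.o3 f), .stay, some .stop, none)
  | .o3 f, _, _, _ => (some (.o4 f), .stay, some .F, some (false, true))
  | .o4 f, _, _, _ => (some (.s2 f), .right, none, some (false, true))
  | .s7, _, _, _ => (some .s8, .stay, some .F, some (false, true))
  | .s8, _, _, _ => (some .s9, .stay, some .T, some (false, true))
  | .s9, .lend, _, _ => (some (.s2 true), .right, none, none)
  | .s9, .rend, _, _ => (some .s9, .left, none, none)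
  | .s9, .bit _, _, _ => (some .s9, .left, none, some (false, true))

/-- the simulated input symbol -/
def vsym : Bool → Bool → InSym
  | _, true => InSym.lend
  | true, false => InSym.rend
  | false, false => InSym.bit true

/-- state after a simulated step -/
def mvSt : Move → P2
  | .left => .mvL
  | .stay => .sim
  | .right => .mvR

/-- the state after a step of the first phase -/
def nxt (M : LogTM Tok) : Option P1 → P1 ⊕ (P2 × M.Q)
  | none => Sum.inr (P2.sim, M.start)
  | some p => Sum.inl p

/-- transition function; the state is `inl` (first phase) or `inr` (second phase) -/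
def prepδ (M : LogTM Tok) : P1 ⊕ (P2 × M.Q) → InSym → (M.K → M.Γ) → (Bool → Bool) →
    Option ((P1 ⊕ (P2 × M.Q)) × Move × (M.K → M.Γ × Move) × Option Tok × Option (Bool × Bool))
  | .inl p, s, r, z =>
    some (nxt M (p1δ p s (z false) (z true)).1,
      (p1δ p s (z false) (z true)).2.1, (fun k => (r k, Move.stay)),
      (p1δ p s (z false) (z true)).2.2.1, (p1δ p s (z false) (z true)).2.2.2)
  | .inr (.sim, q), _, r, z =>
    (M.δ q (vsym (z false) (z true)) r).map fun x =>
      (Sum.inr (mvSt x.2.1, x.1), Move.stay, x.2.2.1, x.2.2.2, none)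
  | .inr (.mvL, q), _, r, z =>
    if z true then some (Sum.inr (.sim, q), Move.stay, (fun k => (r k, Move.stay)), none, none)
    else some (Sum.inr (.mvL2, q), Move.stay, (fun k => (r k, Move.stay)), none,
      some (true, false))
  | .inr (.mvL2, q), _, r, _ =>
    some (Sum.inr (.sim, q), Move.stay, (fun k => (r k, Move.stay)), none, some (false, true))
  | .inr (.mvR, q), _, r, z =>
    if z false then some (Sum.inr (.sim, q), Move.stay, (fun k => (r k, Move.stay)), none, none)
    else some (Sum.inr (.mvR2, q), Move.stay, (fun k => (r k, Move.stay)), none,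
      some (false, false))
  | .inr (.mvR2, q), _, r, _ =>
    some (Sum.inr (.sim, q), Move.stay, (fun k => (r k, Move.stay)), none, some (true, true))

/-- the machine -/
def prep (M : LogTM Tok) : CM Tok :=
  letI := M.finQ
  letI := M.finK
  letI := M.finΓ
  { Q := P1 ⊕ (P2 × M.Q)
    K := M.K
    Γ := M.Γ
    C := Bool
    blank := M.blank
    start := Sum.inl P1.s0
    δ := prepδ M }

/-- values of the counters -/
def AB (A B : ℕ) : Bool → ℕ
  | false => A
  | true => B

theorem AB_updA (A B x : ℕ) : Function.update (AB A B) false x = AB x B := by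
  funext b
  cases b <;> simp [AB, Function.update]

theorem AB_updB (A B x : ℕ) : Function.update (AB A B) true x = AB A x := by
  funext b
  cases b <;> simp [AB, Function.update]

section
variable (M : LogTM Tok)

/-- configurations in the first phase -/
def mk (q : P1 ⊕ (P2 × M.Q)) (pos A B : ℕ) (out : List Tok) : (prep M).Cfg :=
  ⟨q, pos, fun _ _ => M.blank, fun _ => 0, AB A B, out⟩

theorem good_mk {s n : ℕ} (hs : Nat.log 2 (6 * n + 5) + 1 ≤ s) (q : P1 ⊕ (P2 × M.Q))
    (pos : ℕ) {A B : ℕ} (hA : A ≤ 6 * n + 4) (hB : B ≤ 6 * n + 4) (out : List Tok) :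
    (prep M).Good s (mk M q pos A B out) := by
  refine ⟨fun k => ?_, fun i => ?_⟩
  · show |(0 : ℤ)| ≤ _
    simp
  · have key : ∀ v, v ≤ 6 * n + 4 → (ds v).length + 1 ≤ s := by
      intro v hv
      have h1 := length_ds_le v
      have h2 : Nat.log 2 (v + 1) ≤ Nat.log 2 (6 * n + 5) := Nat.log_mono_right (by omega)
      omega
    cases i
    · exact key A hA
    · exact key B hB

/-- the steps of the first phase -/
theorem p1_step {w : List Bool} {p : P1} {pos A B : ℕ} {out : List Tok} {x : Option P1}
    {mv : Move} {o : Option Tok} {op : Option (Bool × Bool)}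
    (h : p1δ p (inSym w pos) (decide (A = 0)) (decide (B = 0)) = (x, mv, o, op)) {A' B' : ℕ}
    (hop : (prep M).ctrOp (AB A B) op = AB A' B') :
    (prep M).step w (mk M (Sum.inl p) pos A B out) = some (mk M (nxt M x) (movePos w.length pos mv) A' B' (out ++ o.toList)) := by
  have h1 : prepδ M (Sum.inl p) (inSym w pos) (fun _ => M.blank)
      (fun i => decide (AB A B i = 0)) = some (nxt M x, mv, (fun _ => (M.blank, Move.stay)), o,
        op) := by
    show some (nxt M (p1δ p (inSym w pos) (decide (A = 0)) (decide (B = 0))).1,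
      (p1δ p (inSym w pos) (decide (A = 0)) (decide (B = 0))).2.1, (fun _ => (M.blank, Move.stay)),
      (p1δ p (inSym w pos) (decide (A = 0)) (decide (B = 0))).2.2.1,
      (p1δ p (inSym w pos) (decide (A = 0)) (decide (B = 0))).2.2.2) = _
    rw [h]
  unfold CM.step
  show Option.map _ (prepδ M (Sum.inl p) (inSym w pos) (fun _ => M.blank)
      (fun i => decide (AB A B i = 0))) = _
  rw [h1]
  simp only [Option.map_some, Option.some.injEq]
  unfold mk
  congr 1
  · funext k
    exact Function.update_eq_self (a := (0 : ℤ)) (f := fun _ => M.blank)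

variable {M}

/-- one step of the first phase, as reachability -/
theorem p1_reach {n s : ℕ} (hs : Nat.log 2 (6 * n + 5) + 1 ≤ s) {w : List Bool} {p : P1}
    {pos A B : ℕ} {out : List Tok} {x : Option P1} {mv : Move} {o : Option Tok}
    {op : Option (Bool × Bool)} (hA : A ≤ 6 * n + 4) (hB : B ≤ 6 * n + 4)
    (h : p1δ p (inSym w pos) (decide (A = 0)) (decide (B = 0)) = (x, mv, o, op)) {A' B' : ℕ}
    (hop : (prep M).ctrOp (AB A B) op = AB A' B') (hA' : A' ≤ 6 * n + 4) (hB' : B' ≤ 6 * n + 4) :
    (prep M).Reach w s (mk M (Sum.inl p) pos A B out)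
      (mk M (nxt M x) (movePos w.length pos mv) A' B' (out ++ o.toList)) :=
  ReflTransGen.single ⟨p1_step M h hop, good_mk M hs _ _ hA hB _, good_mk M hs _ _ hA' hB' _⟩

theorem op_none (A B : ℕ) : (prep M).ctrOp (AB A B) none = AB A B := rfl
theorem op_incA (A B : ℕ) : (prep M).ctrOp (AB A B) (some (false, true)) = AB (A + 1) B :=
  AB_updA A B (A + 1)
theorem op_decA (A B : ℕ) : (prep M).ctrOp (AB A B) (some (false, false)) = AB (A - 1) B :=
  AB_updA A B (A - 1)
theorem op_incB (A B : ℕ) : (prep M).ctrOp (AB A B) (some (true, true)) = AB A (B + 1) :=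
  AB_updB A B (B + 1)
theorem op_decB (A B : ℕ) : (prep M).ctrOp (AB A B) (some (true, false)) = AB A (B - 1) :=
  AB_updB A B (B - 1)

theorem inSym_zero (w : List Bool) : inSym w 0 = InSym.lend := rfl

theorem inSym_bit {n i : ℕ} (h : i < n) :
    inSym (List.replicate n true) (i + 1) = InSym.bit true := by
  simp [inSym, h]

theorem inSym_rend (n : ℕ) : inSym (List.replicate n true) (n + 1) = InSym.rend := by
  simp [inSym]

/-- one step of the first phase -/
theorem p1r {n s : ℕ} (hs : Nat.log 2 (6 * n + 5) + 1 ≤ s) {w : List Bool} {p : P1}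
    {pos A B : ℕ} {out : List Tok} (x : Option P1) (mv : Move) (o : Option Tok)
    (op : Option (Bool × Bool)) {q' : P1 ⊕ (P2 × M.Q)} {pos' A' B' : ℕ} {out' : List Tok}
    (h : p1δ p (inSym w pos) (decide (A = 0)) (decide (B = 0)) = (x, mv, o, op))
    (hop : (prep M).ctrOp (AB A B) op = AB A' B')
    (hq : nxt M x = q') (hpos : movePos w.length pos mv = pos') (hout : out ++ o.toList = out')
    (hA : A ≤ 6 * n + 4) (hB : B ≤ 6 * n + 4) (hA' : A' ≤ 6 * n + 4) (hB' : B' ≤ 6 * n + 4) :
    (prep M).Reach w s (mk M (Sum.inl p) pos A B out) (mk M q' pos' A' B' out') := by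
  subst hq hpos hout
  exact p1_reach hs hA hB h hop hA' hB'

/-- the emission loop -/
theorem e_loop1 {n s : ℕ} (hs : Nat.log 2 (6 * n + 5) + 1 ≤ s) (w : List Bool) (f : Bool)
    (pos : ℕ) : ∀ (A B : ℕ) (out : List Tok), A + B ≤ 6 * n + 4 →
    (prep M).Reach w s (mk M (Sum.inl (.e1 f)) pos A B out)
      (mk M (Sum.inl (.e3 f)) pos 0 (A + B) (out ++ List.replicate A Tok.one)) := by
  intro A
  induction A with
  | zero =>
    intro B out h
    refine p1r hs (some (.e3 f)) .stay none none (by simp [p1δ]) ?_ rfl rfl (by simp)
      (by omega) (by omega) (by omega) (by omega)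
    rw [Nat.zero_add]
    exact op_none _ _
  | succ A ih =>
    intro B out h
    refine (p1r hs (some (.e2 f)) .stay (some .one) (some (false, false)) (by simp [p1δ])
      (op_decA _ _) rfl rfl rfl (by omega) (by omega) (by omega) (by omega)).trans ?_
    refine (p1r hs (some (.e1 f)) .stay none (some (true, true)) (by simp [p1δ])
      (op_incB _ _) rfl rfl (out' := out ++ [Tok.one]) (by simp) (by omega) (by omega) (by omega)
      (by omega)).trans ?_
    have h3 := ih (B + 1) (out ++ [Tok.one]) (by omega)
    have e1 : A + (B + 1) = A + 1 + B := by omega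
    have e2 : out ++ [Tok.one] ++ List.replicate A Tok.one =
        out ++ List.replicate (A + 1) Tok.one := by
      rw [List.append_assoc, List.replicate_succ]; rfl
    rw [e1, e2] at h3
    exact h3

/-- the restoring loop -/
theorem e_loop2 {n s : ℕ} (hs : Nat.log 2 (6 * n + 5) + 1 ≤ s) (w : List Bool) (f : Bool)
    (pos : ℕ) : ∀ (B A : ℕ) (out : List Tok), A + B ≤ 6 * n + 4 →
    (prep M).Reach w s (mk M (Sum.inl (.e3 f)) pos A B out)
      (mk M (Sum.inl (.o1 f)) pos (A + B) 0 (out ++ [Tok.stop])) := by
  intro B
  induction B with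
  | zero =>
    intro A out h
    exact p1r hs (some (.o1 f)) .stay (some .stop) none (by simp [p1δ]) (op_none _ _) rfl rfl
      rfl (by omega) (by omega) (by omega) (by omega)
  | succ B ih =>
    intro A out h
    refine (p1r hs (some (.e4 f)) .stay none (some (true, false)) (by simp [p1δ])
      (op_decB _ _) rfl rfl (out' := out) (by simp) (by omega) (by omega) (by omega)
      (by omega)).trans ?_
    refine (p1r hs (some (.e3 f)) .stay none (some (false, true)) (by simp [p1δ])
      (op_incA _ _) rfl rfl (out' := out) (by simp) (by omega) (by omega) (by omega)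
      (by omega)).trans ?_
    have h3 := ih (A + 1) out (by omega)
    have e1 : A + 1 + B = A + (B + 1) := by omega
    rw [e1] at h3
    exact h3

/-- the three gates that produce the code of a letter `x_i`; `x` is the distance to `x_i` -/
def tri (x : ℕ) : List Gate := [Gate.not (x - 1), Gate.not 0, Gate.const false]

theorem toks_tri (x : ℕ) : toks (tri x) =
    [Tok.N] ++ List.replicate (x - 1) Tok.one ++ [Tok.stop] ++ [Tok.N] ++ [Tok.stop] ++ [Tok.F] := by
  simp [toks, tri, Gate.toks]

theorem emit {n s : ℕ} (hs : Nat.log 2 (6 * n + 5) + 1 ≤ s) {w : List Bool} (f : Bool)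
    {pos : ℕ} (hpos : inSym w pos = InSym.bit true) {x : ℕ} (hx : 1 ≤ x) (hx' : x + 2 ≤ 6 * n + 4)
    (out : List Tok) :
    (prep M).Reach w s (mk M (Sum.inl (.s2 f)) pos x 0 out)
      (mk M (Sum.inl (.s2 f)) (min (pos + 1) (w.length + 1)) (x + 2) 0
        (out ++ toks (tri x))) := by
  refine (p1r hs (some (.e2 f)) .stay (some .N) (some (false, false)) (by simp [p1δ, hpos])
      (op_decA _ _) rfl rfl rfl (by omega) (by omega) (by omega) (by omega)).trans ?_
  refine (p1r hs (some (.e1 f)) .stay none (some (true, true)) (by simp [p1δ])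
      (op_incB _ _) rfl rfl rfl (by omega) (by omega) (by omega) (by omega)).trans ?_
  refine (e_loop1 hs w f _ _ _ _ (by omega)).trans ?_
  refine (e_loop2 hs w f _ _ _ _ (by omega)).trans ?_
  have e1 : 0 + (x - 1 + (0 + 1)) = x := by omega
  rw [e1]
  refine (p1r hs (some (.o2 f)) .stay (some .N) none (by simp [p1δ])
      (op_none _ _) rfl rfl rfl (by omega) (by omega) (by omega) (by omega)).trans ?_
  refine (p1r hs (some (.o3 f)) .stay (some .stop) none (by simp [p1δ])
      (op_none _ _) rfl rfl rfl (by omega) (by omega) (by omega) (by omega)).trans ?_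
  refine (p1r hs (some (.o4 f)) .stay (some .F) (some (false, true)) (by simp [p1δ])
      (op_incA _ _) rfl rfl rfl (by omega) (by omega) (by omega) (by omega)).trans ?_
  refine (p1r hs (some (.s2 f)) .right none (some (false, true)) (by simp [p1δ])
      (op_incA _ _) rfl rfl ?_ (by omega) (by omega) (by omega) (by omega))
  rw [toks_tri]
  simp [Option.toList]

/-- one pass over the input -/
theorem pass {n s : ℕ} (hs : Nat.log 2 (6 * n + 5) + 1 ≤ s) (f : Bool) {a : ℕ} (ha : n ≤ a)
    (ha' : a + 2 * n ≤ 6 * n + 4) (out : List Tok) : ∀ i, i ≤ n →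
    (prep M).Reach (List.replicate n true) s (mk M (Sum.inl (.s2 f)) 1 a 0 out)
      (mk M (Sum.inl (.s2 f)) (i + 1) (a + 2 * i) 0
        (out ++ toks ((List.range i).flatMap fun j => tri (a + 2 * j)))) := by
  intro i
  induction i with
  | zero =>
    intro _
    simp only [List.range_zero, List.flatMap_nil, toks, List.append_nil, Nat.mul_zero,
      Nat.add_zero, Nat.zero_add]
    exact ReflTransGen.refl
  | succ i ih =>
    intro hi
    refine (ih (by omega)).trans ?_
    have h1 := emit (M := M) hs (w := List.replicate n true) f (inSym_bit (n := n) (i := i)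
      (by omega)) (x := a + 2 * i) (by omega) (by omega)
      (out ++ toks ((List.range i).flatMap fun j => tri (a + 2 * j)))
    have e1 : min (i + 1 + 1) ((List.replicate n true).length + 1) = i + 1 + 1 := by
      simp; omega
    have e2 : a + 2 * i + 2 = a + 2 * (i + 1) := by ring
    have e3 : out ++ toks ((List.range i).flatMap fun j => tri (a + 2 * j)) ++
        toks (tri (a + 2 * i)) =
        out ++ toks ((List.range (i + 1)).flatMap fun j => tri (a + 2 * j)) := by
      rw [List.range_succ, List.flatMap_append]
      simp [toks]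
    rw [e1, e2, e3] at h1
    exact h1

/-- the gates of the first phase -/
def pre (n : ℕ) : Circuit :=
  (List.range n).flatMap (fun j => tri (n + 2 * j)) ++
    [Gate.const false, Gate.const false, Gate.const true] ++
    (List.range n).flatMap (fun j => tri (4 * n + 3 + 2 * j))

theorem phase1 {n s : ℕ} (hs : Nat.log 2 (6 * n + 5) + 1 ≤ s) :
    (prep M).Reach (List.replicate n true) s (mk M (Sum.inl .s0) 0 0 0 [])
      (mk M (Sum.inr (.sim, M.start)) (n + 1) (6 * n + 4) 0 (toks (pre n))) := by
  have hlen : (List.replicate n true).length = n := by simp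
  -- counting
  refine (p1r hs (some .s0) .right none none (by simp [p1δ, inSym_zero]) (op_none _ _) rfl
    (pos' := 1) (by simp [movePos]) rfl (by omega) (by omega) (by omega) (by omega)).trans ?_
  have h1 : ∀ i, i ≤ n → (prep M).Reach (List.replicate n true) s (mk M (Sum.inl .s0) 1 0 0 [])
      (mk M (Sum.inl .s0) (i + 1) i 0 []) := by
    intro i
    induction i with
    | zero => intro _; exact ReflTransGen.refl
    | succ i ih =>
      intro hi
      refine (ih (by omega)).trans ?_
      exact p1r hs (some .s0) .right none (some (false, true))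
        (by simp [p1δ, inSym_bit (n := n) (i := i) (by omega)]) (op_incA _ _) rfl
        (by simp only [movePos, hlen]; omega) rfl (by omega) (by omega) (by omega) (by omega)
  refine (h1 n le_rfl).trans ?_
  refine (p1r hs (some .s1) .stay none none (by simp [p1δ, inSym_rend]) (op_none _ _) rfl
    rfl rfl (by omega) (by omega) (by omega) (by omega)).trans ?_
  -- moving left
  have h2 : ∀ j, j ≤ n + 1 → (prep M).Reach (List.replicate n true) s
      (mk M (Sum.inl .s1) j n 0 []) (mk M (Sum.inl .s1) 0 n 0 []) := by
    intro j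
    induction j with
    | zero => intro _; exact ReflTransGen.refl
    | succ j ih =>
      intro hj
      refine ReflTransGen.trans ?_ (ih (by omega))
      have h3 : p1δ .s1 (inSym (List.replicate n true) (j + 1)) (decide (n = 0))
          (decide (0 = 0)) = (some .s1, .left, none, none) := by
        rcases Nat.lt_or_ge j n with h | h
        · rw [inSym_bit h]; rfl
        · have : j = n := by omega
          subst this
          rw [inSym_rend]; rfl
      exact p1r hs (some .s1) .left none none h3 (op_none _ _) rfl
        (by simp only [movePos]; omega) rfl (by omega) (by omega) (by omega) (by omega)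
  refine (h2 (n + 1) le_rfl).trans ?_
  refine (p1r hs (some (.s2 false)) .right none none (by simp [p1δ, inSym_zero]) (op_none _ _) rfl
    (pos' := 1) (by simp [movePos]) rfl (by omega) (by omega) (by omega) (by omega)).trans ?_
  -- first pass
  refine (pass (M := M) hs false (le_refl n) (by omega) _ n le_rfl).trans ?_
  refine (p1r hs (some .s7) .stay (some .F) (some (false, true)) (by simp [p1δ, inSym_rend])
    (op_incA _ _) rfl rfl rfl (by omega) (by omega) (by omega) (by omega)).trans ?_
  refine (p1r hs (some .s8) .stay (some .F) (some (false, true)) (by simp [p1δ])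
    (op_incA _ _) rfl rfl rfl (by omega) (by omega) (by omega) (by omega)).trans ?_
  refine (p1r hs (some .s9) .stay (some .T) (some (false, true)) (by simp [p1δ])
    (op_incA _ _) rfl rfl rfl (by omega) (by omega) (by omega) (by omega)).trans ?_
  refine (p1r hs (some .s9) .left none none (by simp [p1δ, inSym_rend, movePos])
    (op_none _ _) rfl (pos' := n) (by simp [movePos]) rfl (by omega) (by omega) (by omega)
    (by omega)).trans ?_
  -- moving left, counting
  have h4 : ∀ j, j ≤ n → ∀ out, (prep M).Reach (List.replicate n true) s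
      (mk M (Sum.inl .s9) j (4 * n + 3 - j) 0 out) (mk M (Sum.inl .s9) 0 (4 * n + 3) 0 out) := by
    intro j
    induction j with
    | zero => intro _ _; exact ReflTransGen.refl
    | succ j ih =>
      intro hj out
      refine ReflTransGen.trans ?_ (ih (by omega) out)
      refine p1r hs (some .s9) .left none (some (false, true))
        (by simp [p1δ, inSym_bit (n := n) (i := j) (by omega)]) ?_ rfl
        (by simp only [movePos]; omega) (by simp) (by omega) (by omega) (by omega) (by omega)
      refine (op_incA (M := M) _ _).trans ?_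
      congr 1
      omega
  have e1 : n + 2 * n + 1 + 1 + 1 = 4 * n + 3 - n := by omega
  rw [e1]
  refine (h4 n le_rfl _).trans ?_
  refine (p1r hs (some (.s2 true)) .right none none (by simp [p1δ, inSym_zero]) (op_none _ _) rfl
    (pos' := 1) (by simp [movePos]) rfl (by omega) (by omega) (by omega) (by omega)).trans ?_
  -- second pass
  refine (pass (M := M) hs true (a := 4 * n + 3) (by omega) (by omega) _ n le_rfl).trans ?_
  refine p1r hs none .stay none (some (false, true)) (by simp [p1δ, inSym_rend])
    ?_ rfl rfl ?_ (by omega) (by omega) (by omega) (by omega)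
  · refine (op_incA (M := M) _ _).trans ?_
    congr 1
    omega
  · simp [pre, toks, Gate.toks, Option.toList]

/-! ### second phase -/

/-- configurations in the second phase -/
def sc (c : M.Cfg) (o : List Tok) (q : P2 × M.Q) (pos A B : ℕ) : (prep M).Cfg :=
  ⟨Sum.inr q, pos, c.tape, c.head, AB A B, o ++ c.out⟩

theorem good_sc {s n : ℕ} (hs : Nat.log 2 (6 * n + 5) + 1 ≤ s) (c : M.Cfg) (hc : M.Within s c)
    (o : List Tok) (q : P2 × M.Q) (pos : ℕ) {A B : ℕ} (hA : A ≤ 6 * n + 4) (hB : B ≤ 6 * n + 4) :
    (prep M).Good s (sc c o q pos A B) := by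
  refine ⟨fun k => hc k, fun i => ?_⟩
  have key : ∀ v, v ≤ 6 * n + 4 → (ds v).length + 1 ≤ s := by
    intro v hv
    have h1 := length_ds_le v
    have h2 : Nat.log 2 (v + 1) ≤ Nat.log 2 (6 * n + 5) := Nat.log_mono_right (by omega)
    omega
  cases i
  · exact key A hA
  · exact key B hB

theorem vsym_eq {m p : ℕ} (hp : p ≤ m + 1) :
    vsym (decide (m + 1 - p = 0)) (decide (p = 0)) = inSym (List.replicate m true) p := by
  rcases p with _ | p
  · simp [vsym, inSym]
  · rcases Nat.lt_or_ge p m with h | h
    · rw [inSym_bit h]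
      have : ¬ (m + 1 - (p + 1) = 0) := by omega
      rw [decide_eq_false this]
      simp [vsym]
    · have : p = m := by omega
      subst this
      rw [inSym_rend]
      simp [vsym]

/-- steps in the second phase that do not belong to a step of `M` -/
theorem p2_step {w : List Bool} (c : M.Cfg) (o : List Tok) (p p' : P2) (q : M.Q) (pos A B A' B' : ℕ)
    (op : Option (Bool × Bool))
    (h : ∀ r, prepδ M (Sum.inr (p, q)) (inSym w pos) r (fun i => decide (AB A B i = 0)) =
      some (Sum.inr (p', q), Move.stay, (fun k => (r k, Move.stay)), none, op))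
    (hop : (prep M).ctrOp (AB A B) op = AB A' B') :
    (prep M).step w (sc c o (p, q) pos A B) = some (sc c o (p', q) pos A' B') := by
  unfold CM.step
  show Option.map _ (prepδ M (Sum.inr (p, q)) (inSym w pos) (fun k => c.tape k (c.head k))
      (fun i => decide (AB A B i = 0))) = _
  rw [h]
  simp only [Option.map_some, Option.some.injEq]
  unfold sc
  congr 1
  · funext k
    exact Function.update_eq_self (a := c.head k) (f := c.tape k)
  · funext k
    show c.head k + Move.stay.toInt = c.head k
    simp [Move.toInt]
  · simp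

theorem sim_step {n s : ℕ} (hs : Nat.log 2 (6 * n + 5) + 1 ≤ s) (w : List Bool) (pos : ℕ)
    (o : List Tok) (c c' : M.Cfg) (h : M.step (List.replicate (6 * n + 3) true) c = some c')
    (hc : M.Within s c) (hc' : M.Within s c') (hp : c.pos ≤ 6 * n + 4) :
    c'.pos ≤ 6 * n + 4 ∧
    (prep M).Reach w s (sc c o (.sim, c.q) pos (6 * n + 4 - c.pos) c.pos)
      (sc c' o (.sim, c'.q) pos (6 * n + 4 - c'.pos) c'.pos) := by
  unfold LogTM.step at h
  rw [Option.map_eq_some_iff] at h
  obtain ⟨⟨q', mv, wr, ot⟩, h1, h2⟩ := h
  have hpos : c'.pos = movePos (6 * n + 3) c.pos mv := by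
    rw [← h2]; simp
  have hq : c'.q = q' := by rw [← h2]
  have hp' : c'.pos ≤ 6 * n + 4 := by
    rw [hpos]
    cases mv <;> simp only [movePos] <;> omega
  refine ⟨hp', ?_⟩
  -- the first step
  have hfirst : (prep M).step w (sc c o (.sim, c.q) pos (6 * n + 4 - c.pos) c.pos) =
      some (sc c' o (mvSt mv, c'.q) pos (6 * n + 4 - c.pos) c.pos) := by
    unfold CM.step
    show Option.map _ (prepδ M (Sum.inr (.sim, c.q)) (inSym w pos) (fun k => c.tape k (c.head k))
      (fun i => decide (AB (6 * n + 4 - c.pos) c.pos i = 0))) = _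
    have h3 : prepδ M (Sum.inr (.sim, c.q)) (inSym w pos) (fun k => c.tape k (c.head k))
        (fun i => decide (AB (6 * n + 4 - c.pos) c.pos i = 0)) =
        some (Sum.inr (mvSt mv, q'), Move.stay, wr, ot, none) := by
      show (M.δ c.q (vsym (decide (6 * n + 4 - c.pos = 0)) (decide (c.pos = 0)))
        (fun k => c.tape k (c.head k))).map _ = _
      have := vsym_eq (m := 6 * n + 3) hp
      rw [this, h1]
      rfl
    rw [h3]
    simp only [Option.map_some, Option.some.injEq]
    subst h2
    unfold sc
    congr 1
    simp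
  have g1 := good_sc hs c hc o (.sim, c.q) pos (A := 6 * n + 4 - c.pos) (B := c.pos) (by omega) hp
  have g2 := good_sc hs c' hc' o (mvSt mv, c'.q) pos (A := 6 * n + 4 - c.pos) (B := c.pos)
    (by omega) hp
  have g3 := good_sc hs c' hc' o (.sim, c'.q) pos (A := 6 * n + 4 - c'.pos) (B := c'.pos)
    (by omega) hp'
  refine ReflTransGen.head ⟨hfirst, g1, g2⟩ ?_
  cases mv with
  | stay =>
    have : c'.pos = c.pos := by rw [hpos]; rfl
    rw [this]
    exact ReflTransGen.refl
  | left =>
    have hpl : c'.pos = c.pos - 1 := by rw [hpos]; rfl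
    by_cases h0 : c.pos = 0
    · have h4 := p2_step (w := w) c' o .mvL .sim c'.q pos (6 * n + 4 - c.pos) c.pos
        (6 * n + 4 - c'.pos) c'.pos none (by
          intro r
          simp [prepδ, AB, h0]) (by
          rw [hpl, h0]; rfl)
      exact ReflTransGen.single ⟨h4, g2, g3⟩
    · have h4 := p2_step (w := w) c' o .mvL .mvL2 c'.q pos (6 * n + 4 - c.pos) c.pos
        (6 * n + 4 - c.pos) c'.pos (some (true, false)) (by
          intro r
          simp [prepδ, AB, h0]) (by
          rw [hpl]; exact op_decB _ _)
      have h5 := p2_step (w := w) c' o .mvL2 .sim c'.q pos (6 * n + 4 - c.pos) c'.pos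
        (6 * n + 4 - c'.pos) c'.pos (some (false, true)) (by
          intro r
          simp [prepδ]) (by
          refine (op_incA (M := M) _ _).trans ?_
          congr 1
          omega)
      have g4 := good_sc hs c' hc' o (.mvL2, c'.q) pos (A := 6 * n + 4 - c.pos) (B := c'.pos)
        (by omega) hp'
      exact ReflTransGen.head ⟨h4, g2, g4⟩ (ReflTransGen.single ⟨h5, g4, g3⟩)
  | right =>
    have hpl : c'.pos = min (c.pos + 1) (6 * n + 4) := by rw [hpos]; rfl
    by_cases h0 : 6 * n + 4 - c.pos = 0
    · have h4 := p2_step (w := w) c' o .mvR .sim c'.q pos (6 * n + 4 - c.pos) c.pos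
        (6 * n + 4 - c'.pos) c'.pos none (by
          intro r
          simp [prepδ, AB, h0]) (by
          have : c'.pos = c.pos := by omega
          rw [this]; rfl)
      exact ReflTransGen.single ⟨h4, g2, g3⟩
    · have h4 := p2_step (w := w) c' o .mvR .mvR2 c'.q pos (6 * n + 4 - c.pos) c.pos
        (6 * n + 4 - c'.pos) c.pos (some (false, false)) (by
          intro r
          simp [prepδ, AB, h0]) (by
          refine (op_decA (M := M) _ _).trans ?_
          congr 1
          omega)
      have h5 := p2_step (w := w) c' o .mvR2 .sim c'.q pos (6 * n + 4 - c'.pos) c.pos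
        (6 * n + 4 - c'.pos) c'.pos (some (true, true)) (by
          intro r
          simp [prepδ]) (by
          refine (op_incB (M := M) _ _).trans ?_
          congr 1
          omega)
      have g4 := good_sc hs c' hc' o (.mvR2, c'.q) pos (A := 6 * n + 4 - c'.pos) (B := c.pos)
        (by omega) hp
      exact ReflTransGen.head ⟨h4, g2, g4⟩ (ReflTransGen.single ⟨h5, g4, g3⟩)

theorem sim_halt {n : ℕ} (w : List Bool) (pos : ℕ) (o : List Tok) (c : M.Cfg)
    (h : M.step (List.replicate (6 * n + 3) true) c = none) (hp : c.pos ≤ 6 * n + 4) :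
    (prep M).step w (sc c o (.sim, c.q) pos (6 * n + 4 - c.pos) c.pos) = none := by
  unfold LogTM.step at h
  rw [Option.map_eq_none_iff] at h
  unfold CM.step
  rw [Option.map_eq_none_iff]
  show (M.δ c.q (vsym (decide (6 * n + 4 - c.pos = 0)) (decide (c.pos = 0)))
        (fun k => c.tape k (c.head k))).map _ = _
  have := vsym_eq (m := 6 * n + 3) hp
  rw [this, h]
  rfl

theorem prep_computes {n s : ℕ} (hs : Nat.log 2 (6 * n + 5) + 1 ≤ s) {y : List Tok}
    (h : M.Computes (List.replicate (6 * n + 3) true) s y) :
    (prep M).toLog.Computes (List.replicate n true) s (toks (pre n) ++ y) := by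
  obtain ⟨c, h1, h2, h3⟩ := h
  have key : ∀ c, ReflTransGen (fun a b => M.step (List.replicate (6 * n + 3) true) a = some b ∧
      M.Within s b) M.init c → c.pos ≤ 6 * n + 4 ∧ M.Within s c ∧
      (prep M).Reach (List.replicate n true) s (prep M).init
        (sc c (toks (pre n)) (.sim, c.q) (n + 1) (6 * n + 4 - c.pos) c.pos) := by
    intro c hc
    induction hc with
    | refl =>
      refine ⟨by simp [LogTM.init], fun k => by simp [LogTM.init], ?_⟩
      have h4 := phase1 (M := M) hs
      have e1 : (prep M).init = mk M (Sum.inl .s0) 0 0 0 [] := by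
        unfold CM.init mk
        congr 1
        funext b
        cases b <;> rfl
      have e2 : sc M.init (toks (pre n)) (.sim, M.init.q) (n + 1) (6 * n + 4 - M.init.pos)
          M.init.pos = mk M (Sum.inr (.sim, M.start)) (n + 1) (6 * n + 4) 0 (toks (pre n)) := by
        unfold sc mk LogTM.init
        simp only [List.append_nil, Nat.sub_zero]
        rfl
      rw [e1, e2]
      exact h4
    | tail _ hst ih =>
      obtain ⟨g1, g2, g3⟩ := ih
      obtain ⟨k1, k2⟩ := sim_step hs (List.replicate n true) (n + 1) (toks (pre n)) _ _ hst.1 g2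
        hst.2 g1
      exact ⟨k1, hst.2, g3.trans k2⟩
  obtain ⟨g1, _, g3⟩ := key c h1
  have h5 := CM.computes g3 (sim_halt _ _ _ c h2 g1)
  have e3 : (sc c (toks (pre n)) (.sim, c.q) (n + 1) (6 * n + 4 - c.pos) c.pos).out =
      toks (pre n) ++ y := by
    show toks (pre n) ++ c.out = _
    rw [h3]
  rw [e3] at h5
  exact h5

end

end Pool.Agent.H31.Dag
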