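import Pool.Agent.H31.Dag.Circ

/-!
# Canonical words: the combinatorial core
-/

set_option autoImplicit false

namespace Pool.Agent.H31.Dag

variable {k : ℕ}

theorem Path.append {E : LGraph k} {u v t : ℕ} {w w' : List (Fin k)} (h : Path E u w v)
    (h' : Path E v w' t) : Path E u (w ++ w') t := by
  induction h with
  | nil u => exact h'
  | cons he _ ih => exact Path.cons he (ih h')

theorem Path.snoc {E : LGraph k} {u v t : ℕ} {a : Fin k} {w : List (Fin k)} (h : Path E u w v)
    (he : (v, a, t) ∈ E) : Path E u (w ++ [a]) t :=
  h.append (Path.cons he (Path.nil t))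

/-- the reversed graph -/
def rev (E : LGraph k) : LGraph k := E.map fun e => (e.2.2, e.2.1, e.1)

theorem mem_rev {E : LGraph k} {u v : ℕ} {a : Fin k} : (u, a, v) ∈ rev E ↔ (v, a, u) ∈ E := by
  unfold rev
  simp only [List.mem_map, Prod.mk.injEq, Prod.exists]
  constructor
  · rintro ⟨x, b, y, h, rfl, rfl, rfl⟩; exact h
  · intro h; exact ⟨v, a, u, h, rfl, rfl, rfl⟩

theorem Path.reverse {E : LGraph k} {u v : ℕ} {w : List (Fin k)} (h : Path E u w v) :
    Path (rev E) v w.reverse u := by
  induction h with
  | nil u => exact Path.nil u
  | cons he _ ih => rw [List.reverse_cons]; exact ih.snoc (mem_rev.2 he)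

theorem rev_rev (E : LGraph k) : rev (rev E) = E := by
  simp [rev, Function.comp_def]

/-! ### the closure algorithm -/

/-- the word recorded for a vertex -/
def look (S : List (ℕ × List (Fin k))) (u : ℕ) : Option (List (Fin k)) :=
  ((S.filter fun p => decide (p.1 = u)).head?).map fun p => p.2

/-- process an edge -/
def relax (S : List (ℕ × List (Fin k))) (e : ℕ × Fin k × ℕ) : List (ℕ × List (Fin k)) :=
  (look S e.1).elim S fun w => bif (look S e.2.2).isSome then S else (e.2.2, w ++ [e.2.1]) :: S

/-- visited vertices and canonical words -/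
def clo (E : LGraph k) (s : ℕ) : List (ℕ × List (Fin k)) :=
  (E.flatMap fun _ => E).foldl relax [(s, [])]

theorem look_mem {S : List (ℕ × List (Fin k))} {u : ℕ} {w : List (Fin k)} (h : look S u = some w) :
    (u, w) ∈ S := by
  unfold look at h
  rw [Option.map_eq_some_iff] at h
  obtain ⟨⟨v, w'⟩, h1, rfl⟩ := h
  have h2 := List.mem_of_head? h1
  rw [List.mem_filter] at h2
  obtain ⟨h3, h4⟩ := h2
  have : v = u := by simpa using h4
  subst this
  exact h3

theorem look_isSome {S : List (ℕ × List (Fin k))} {u : ℕ} :
    (look S u).isSome = true ↔ u ∈ S.map Prod.fst := by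
  unfold look
  rw [Option.isSome_map, List.isSome_head?]
  simp only [List.mem_map, Prod.exists, exists_and_right, exists_eq_right]
  constructor
  · intro h
    have h1 : (S.filter fun p => decide (p.1 = u)) ≠ [] := by
      intro h2
      rw [h2] at h
      simp at h
    obtain ⟨p, hp⟩ := List.exists_mem_of_ne_nil _ h1
    rw [List.mem_filter] at hp
    obtain ⟨⟨v, w⟩, h3, h4⟩ : ∃ p : ℕ × List (Fin k), p ∈ S ∧ decide (p.1 = u) = true :=
      ⟨p, hp.1, hp.2⟩
    have : v = u := by simpa using h4
    subst this
    exact ⟨w, h3⟩
  · rintro ⟨w, hw⟩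
    have : (u, w) ∈ S.filter fun p => decide (p.1 = u) := by
      rw [List.mem_filter]; exact ⟨hw, by simp⟩
    cases hS : S.filter fun p => decide (p.1 = u) with
    | nil => rw [hS] at this; simp at this
    | cons a l => simp

theorem relax_cases (S : List (ℕ × List (Fin k))) (e : ℕ × Fin k × ℕ) :
    (relax S e = S ∧ (e.1 ∈ S.map Prod.fst → e.2.2 ∈ S.map Prod.fst)) ∨
    ∃ w, (e.1, w) ∈ S ∧ e.2.2 ∉ S.map Prod.fst ∧ relax S e = (e.2.2, w ++ [e.2.1]) :: S := by
  unfold relax
  cases h : look S e.1 with
  | none =>
    left
    refine ⟨rfl, fun h1 => ?_⟩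
    rw [← look_isSome, h] at h1
    simp at h1
  | some w =>
    simp only [Option.elim_some]
    cases h2 : (look S e.2.2).isSome with
    | true =>
      left
      exact ⟨rfl, fun _ => look_isSome.1 h2⟩
    | false =>
      right
      refine ⟨w, look_mem h, fun h3 => ?_, rfl⟩
      rw [← look_isSome, h2] at h3
      simp at h3

/-- invariant of the closure algorithm -/
def Inv (E : LGraph k) (s : ℕ) (S : List (ℕ × List (Fin k))) : Prop :=
  (S.map Prod.fst).Nodup ∧ (∀ v ∈ S.map Prod.fst, v ∈ s :: E.map fun e => e.2.2) ∧
  (∀ p ∈ S, Path E s p.2 p.1 ∧ p.2.length ≤ S.length) ∧ s ∈ S.map Prod.fst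

theorem inv_init (E : LGraph k) (s : ℕ) : Inv E s [(s, [])] := by
  refine ⟨by simp, by simp, ?_, by simp⟩
  intro p hp
  simp only [List.mem_singleton] at hp
  subst hp
  exact ⟨Path.nil s, by simp⟩

theorem inv_relax {E : LGraph k} {s : ℕ} {S : List (ℕ × List (Fin k))} (h : Inv E s S)
    {e : ℕ × Fin k × ℕ} (he : e ∈ E) : Inv E s (relax S e) := by
  rcases relax_cases S e with ⟨h1, _⟩ | ⟨w, h1, h2, h3⟩
  · rw [h1]; exact h
  · rw [h3]
    obtain ⟨g1, g2, g3, g4⟩ := h
    refine ⟨?_, ?_, ?_, ?_⟩
    · rw [List.map_cons, List.nodup_cons]; exact ⟨h2, g1⟩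
    · intro v hv
      rw [List.map_cons, List.mem_cons] at hv
      rcases hv with rfl | hv
      · exact List.mem_cons_of_mem _ (List.mem_map.2 ⟨e, he, rfl⟩)
      · exact g2 v hv
    · intro p hp
      rw [List.mem_cons] at hp
      rcases hp with rfl | hp
      · obtain ⟨k1, k2⟩ := g3 _ h1
        have k2 : w.length ≤ S.length := k2
        refine ⟨k1.snoc he, ?_⟩
        simp only [List.length_append, List.length_cons, List.length_nil]
        omega
      · obtain ⟨k1, k2⟩ := g3 p hp
        exact ⟨k1, by rw [List.length_cons]; omega⟩
    · rw [List.map_cons]; exact List.mem_cons_of_mem _ g4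

theorem inv_foldl {E : LGraph k} {s : ℕ} (l : List (ℕ × Fin k × ℕ)) :
    ∀ {S : List (ℕ × List (Fin k))}, Inv E s S → (∀ e ∈ l, e ∈ E) → Inv E s (l.foldl relax S) := by
  induction l with
  | nil => intro S h _; exact h
  | cons e l ih =>
    intro S h hl
    exact ih (inv_relax h (hl e List.mem_cons_self)) (fun e he => hl e (List.mem_cons_of_mem _ he))

theorem length_relax (S : List (ℕ × List (Fin k))) (e : ℕ × Fin k × ℕ) :
    S.length ≤ (relax S e).length := by
  rcases relax_cases S e with ⟨h1, _⟩ | ⟨w, _, _, h3⟩
  · rw [h1]
  · rw [h3]; simp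

theorem length_foldl (l : List (ℕ × Fin k × ℕ)) : ∀ S : List (ℕ × List (Fin k)),
    S.length ≤ (l.foldl relax S).length := by
  induction l with
  | nil => intro S; exact le_rfl
  | cons e l ih => intro S; exact (length_relax S e).trans (ih _)

/-- closed under edges -/
def Closed (E : LGraph k) (S : List (ℕ × List (Fin k))) : Prop :=
  ∀ e ∈ E, e.1 ∈ S.map Prod.fst → e.2.2 ∈ S.map Prod.fst

theorem foldl_fixed (l : List (ℕ × Fin k × ℕ)) (S : List (ℕ × List (Fin k)))
    (h : ∀ e ∈ l, e.1 ∈ S.map Prod.fst → e.2.2 ∈ S.map Prod.fst) : l.foldl relax S = S := by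
  induction l with
  | nil => rfl
  | cons e l ih =>
    rw [List.foldl_cons]
    have h1 : relax S e = S := by
      rcases relax_cases S e with ⟨h1, _⟩ | ⟨w, h1, h2, h3⟩
      · exact h1
      · exact absurd (h e List.mem_cons_self (List.mem_map.2 ⟨_, h1, rfl⟩)) h2
    rw [h1]
    exact ih (fun e he => h e (List.mem_cons_of_mem _ he))

theorem foldl_grow (l : List (ℕ × Fin k × ℕ)) (S : List (ℕ × List (Fin k)))
    (h : ¬ ∀ e ∈ l, e.1 ∈ S.map Prod.fst → e.2.2 ∈ S.map Prod.fst) :
    S.length + 1 ≤ (l.foldl relax S).length := by
  induction l with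
  | nil => exact absurd (by simp) h
  | cons e l ih =>
    rw [List.foldl_cons]
    rcases relax_cases S e with ⟨h1, h2⟩ | ⟨w, h1, h2, h3⟩
    · rw [h1]
      apply ih
      intro hl
      apply h
      intro e' he'
      rcases List.mem_cons.1 he' with rfl | he'
      · exact h2
      · exact hl e' he'
    · have := length_foldl l (relax S e)
      rw [h3] at this ⊢
      simpa using this

theorem foldl_flatMap' (E : LGraph k) : ∀ (l : LGraph k) (S : List (ℕ × List (Fin k))),
    (l.flatMap fun _ => E).foldl relax S = l.foldl (fun S _ => E.foldl relax S) S := by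
  intro l
  induction l with
  | nil => intro S; rfl
  | cons e l ih => intro S; rw [List.flatMap_cons, List.foldl_append, ih]; rfl

theorem clo_inv (E : LGraph k) (s : ℕ) : Inv E s (clo E s) :=
  inv_foldl _ (inv_init E s) (fun e he => by
    rw [List.mem_flatMap] at he
    exact he.choose_spec.2)

theorem closed_of_length {E : LGraph k} {s : ℕ} {S : List (ℕ × List (Fin k))} (h : Inv E s S)
    (hl : E.length + 1 ≤ S.length) : Closed E S := by
  intro e he _
  obtain ⟨g1, g2, _, _⟩ := h
  have h1 : (S.map Prod.fst).toFinset ⊆ (s :: E.map fun e => e.2.2).toFinset := by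
    intro v hv
    rw [List.mem_toFinset] at hv ⊢
    exact g2 v hv
  have h2 : ((s :: E.map fun e => e.2.2).toFinset).card ≤ ((S.map Prod.fst).toFinset).card := by
    rw [List.toFinset_card_of_nodup g1]
    refine (List.toFinset_card_le _).trans ?_
    simpa using hl
  have h3 := Finset.eq_of_subset_of_card_le h1 h2
  have h4 : e.2.2 ∈ (s :: E.map fun e => e.2.2).toFinset := by
    rw [List.mem_toFinset]
    exact List.mem_cons_of_mem _ (List.mem_map.2 ⟨e, he, rfl⟩)
  rw [← h3, List.mem_toFinset] at h4
  exact h4

theorem clo_closed (E : LGraph k) (s : ℕ) : Closed E (clo E s) := by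
  unfold clo
  rw [foldl_flatMap']
  have key : ∀ (l : LGraph k) (S : List (ℕ × List (Fin k))),
      Closed E (l.foldl (fun S _ => E.foldl relax S) S) ∨
      S.length + l.length ≤ (l.foldl (fun S _ => E.foldl relax S) S).length := by
    intro l
    induction l with
    | nil => intro S; right; simp
    | cons e l ih =>
      intro S
      rw [List.foldl_cons]
      by_cases hS : Closed E S
      · left
        have h1 : ∀ l : LGraph k, l.foldl (fun S _ => E.foldl relax S) S = S := by
          intro l
          induction l with
          | nil => rfl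
          | cons e l ih => rw [List.foldl_cons, foldl_fixed E S hS]; exact ih
        rw [foldl_fixed E S hS, h1]
        exact hS
      · rcases ih (E.foldl relax S) with h | h
        · left; exact h
        · right
          have := foldl_grow E S hS
          rw [List.length_cons]
          omega
  rcases key E [(s, [])] with h | h
  · exact h
  · have h1 := clo_inv E s
    unfold clo at h1
    rw [foldl_flatMap'] at h1
    apply closed_of_length h1
    simpa [Nat.add_comm] using h

theorem mem_clo_of_path {E : LGraph k} {s v : ℕ} {w : List (Fin k)} (h : Path E s w v) :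
    v ∈ (clo E s).map Prod.fst := by
  have key : ∀ {u v : ℕ} {w : List (Fin k)}, Path E u w v → u ∈ (clo E s).map Prod.fst →
      v ∈ (clo E s).map Prod.fst := by
    intro u v w h
    induction h with
    | nil u => intro h; exact h
    | cons he _ ih => intro hu; exact ih (clo_closed E s _ he hu)
  exact key h (clo_inv E s).2.2.2

theorem look_clo {E : LGraph k} {s v : ℕ} {w : List (Fin k)} (h : look (clo E s) v = some w) :
    Path E s w v := ((clo_inv E s).2.2.1 _ (look_mem h)).1

theorem exists_look_clo {E : LGraph k} {s v : ℕ} {w : List (Fin k)} (h : Path E s w v) :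
    ∃ w', look (clo E s) v = some w' := by
  have := look_isSome.2 (mem_clo_of_path h)
  exact Option.isSome_iff_exists.1 this

/-! ### canonical words -/

/-- the canonical words of an instance -/
def canon (E : LGraph k) (s t : ℕ) : List (List (Fin k)) :=
  ((clo E s).filterMap fun p => (look (clo (rev E) t) p.1).map fun w => p.2 ++ w.reverse) ++
  (E.filterMap fun e => (look (clo E s) e.1).bind fun v =>
    (look (clo (rev E) t) e.2.2).map fun w => v ++ e.2.1 :: w.reverse)

theorem path_of_rev {E : LGraph k} {u v : ℕ} {w : List (Fin k)} (h : Path (rev E) u w v) :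
    Path E v w.reverse u := by
  have := h.reverse
  rwa [rev_rev] at this

theorem path_of_mem_canon {E : LGraph k} {s t : ℕ} {w : List (Fin k)} (h : w ∈ canon E s t) :
    Path E s w t := by
  unfold canon at h
  rw [List.mem_append, List.mem_filterMap, List.mem_filterMap] at h
  rcases h with ⟨p, hp, h⟩ | ⟨e, he, h⟩
  · rw [Option.map_eq_some_iff] at h
    obtain ⟨w', h1, rfl⟩ := h
    exact ((clo_inv E s).2.2.1 p hp).1.append (path_of_rev (look_clo h1))
  · rw [Option.bind_eq_some_iff] at h
    obtain ⟨v, h1, h2⟩ := h
    rw [Option.map_eq_some_iff] at h2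
    obtain ⟨w', h3, rfl⟩ := h2
    exact (look_clo h1).append (Path.cons he (path_of_rev (look_clo h3)))

theorem vert_mem_canon {E : LGraph k} {s t u : ℕ} {v w : List (Fin k)}
    (hv : look (clo E s) u = some v) (hw : look (clo (rev E) t) u = some w) :
    v ++ w.reverse ∈ canon E s t := by
  unfold canon
  rw [List.mem_append, List.mem_filterMap]
  left
  exact ⟨(u, v), look_mem hv, by rw [hw]; rfl⟩

theorem edge_mem_canon {E : LGraph k} {s t u u' : ℕ} {a : Fin k} (he : (u, a, u') ∈ E)
    {v w : List (Fin k)}
    (hv : look (clo E s) u = some v) (hw : look (clo (rev E) t) u' = some w) :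
    v ++ a :: w.reverse ∈ canon E s t := by
  unfold canon
  rw [List.mem_append, List.mem_filterMap, List.mem_filterMap]
  right
  exact ⟨(u, a, u'), he, by simp [hv, hw]⟩

/-! ### the language -/

/-- `L_K`: the words that are not of the form `x # x` with `x ∉ K` -/
def LK (K : Set (List Bool)) : Set (List (Fin 3)) := {w | ∀ x, code x = w → x ∈ K}

theorem two_notMem_map (x : List Bool) : (2 : Fin 3) ∉ x.map lt := by
  simp only [List.mem_map, not_exists, not_and]
  intro b _
  cases b <;> decide

theorem split_unique {α : Type} {c : α} {p q p' q' : List α} (hp : c ∉ p) (hp' : c ∉ p')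
    (h : p ++ c :: q = p' ++ c :: q') : p = p' ∧ q = q' := by
  induction p generalizing p' with
  | nil =>
    cases p' with
    | nil => simpa using h
    | cons b p' =>
      simp only [List.nil_append, List.cons_append, List.cons.injEq] at h
      exact absurd (by rw [h.1]; exact List.mem_cons_self) hp'
  | cons a p ih =>
    cases p' with
    | nil =>
      simp only [List.nil_append, List.cons_append, List.cons.injEq] at h
      exact absurd (by rw [← h.1]; exact List.mem_cons_self) hp
    | cons b p' =>
      simp only [List.cons_append, List.cons.injEq] at h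
      obtain ⟨h1, h2⟩ := ih (fun h => hp (List.mem_cons_of_mem _ h))
        (fun h => hp' (List.mem_cons_of_mem _ h)) h.2
      exact ⟨by rw [h.1, h1], h2⟩

theorem stop_notMem (i : ℕ) : Tok.stop ∉ List.replicate i Tok.one := by
  intro h
  have := List.eq_of_mem_replicate h
  exact absurd this (by decide)

theorem replicate_stop {i j : ℕ} {q q' : List Tok}
    (h : List.replicate i Tok.one ++ Tok.stop :: q = List.replicate j Tok.one ++ Tok.stop :: q') :
    i = j ∧ q = q' := by
  obtain ⟨h1, h2⟩ := split_unique (stop_notMem i) (stop_notMem j) h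
  have := congrArg List.length h1
  simp only [List.length_replicate] at this
  exact ⟨this, h2⟩

/-- The description determines the circuit (not used; it shows that `toks` is an encoding). -/
theorem toks_injective : Function.Injective toks := by
  intro C
  induction C with
  | nil =>
    intro D h
    cases D with
    | nil => rfl
    | cons g D =>
      exfalso
      cases g with
      | const b => cases b <;> simp [toks, Gate.toks] at h
      | not i => simp [toks, Gate.toks] at h
      | and i j => simp [toks, Gate.toks] at h
      | or i j => simp [toks, Gate.toks] at h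
  | cons g C ih =>
    intro D h
    have hcons : ∀ (g : Gate) (C : Circuit), toks (g :: C) = g.toks ++ toks C := fun g C => rfl
    cases D with
    | nil =>
      exfalso
      cases g with
      | const b => cases b <;> simp [toks, Gate.toks] at h
      | not i => simp [toks, Gate.toks] at h
      | and i j => simp [toks, Gate.toks] at h
      | or i j => simp [toks, Gate.toks] at h
    | cons g' D =>
      rw [hcons, hcons] at h
      have key : g = g' ∧ toks C = toks D := by
        cases g with
        | const b =>
          cases g' with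
          | const b' => cases b <;> cases b' <;> simp_all [Gate.toks]
          | not i' => cases b <;> simp [Gate.toks] at h
          | and i' j' => cases b <;> simp [Gate.toks] at h
          | or i' j' => cases b <;> simp [Gate.toks] at h
        | not i =>
          cases g' with
          | const b' => cases b' <;> simp [Gate.toks] at h
          | not i' =>
            have h1 : List.replicate i Tok.one ++ Tok.stop :: toks C =
                List.replicate i' Tok.one ++ Tok.stop :: toks D := by
              simpa [Gate.toks] using h
            obtain ⟨h2, h3⟩ := replicate_stop h1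
            exact ⟨by rw [h2], h3⟩
          | and i' j' => simp [Gate.toks] at h
          | or i' j' => simp [Gate.toks] at h
        | and i j =>
          cases g' with
          | const b' => cases b' <;> simp [Gate.toks] at h
          | not i' => simp [Gate.toks] at h
          | and i' j' =>
            have h1 : List.replicate i Tok.one ++ Tok.stop ::
                  (List.replicate j Tok.one ++ Tok.stop :: toks C) =
                List.replicate i' Tok.one ++ Tok.stop ::
                  (List.replicate j' Tok.one ++ Tok.stop :: toks D) := by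
              simpa [Gate.toks] using h
            obtain ⟨h2, h3⟩ := replicate_stop h1
            obtain ⟨h4, h5⟩ := replicate_stop h3
            exact ⟨by rw [h2, h4], h5⟩
          | or i' j' => simp [Gate.toks] at h
        | or i j =>
          cases g' with
          | const b' => cases b' <;> simp [Gate.toks] at h
          | not i' => simp [Gate.toks] at h
          | and i' j' => simp [Gate.toks] at h
          | or i' j' =>
            have h1 : List.replicate i Tok.one ++ Tok.stop ::
                  (List.replicate j Tok.one ++ Tok.stop :: toks C) =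
                List.replicate i' Tok.one ++ Tok.stop ::
                  (List.replicate j' Tok.one ++ Tok.stop :: toks D) := by
              simpa [Gate.toks] using h
            obtain ⟨h2, h3⟩ := replicate_stop h1
            obtain ⟨h4, h5⟩ := replicate_stop h3
            exact ⟨by rw [h2, h4], h5⟩
      rw [key.1, ih key.2]

theorem lt_injective : Function.Injective lt := by
  intro a b h
  cases a <;> cases b <;> first | rfl | exact absurd h (by decide)

theorem code_injective : Function.Injective code := by
  intro x y h
  have := (split_unique (two_notMem_map x) (two_notMem_map y) h).1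
  exact List.map_injective_iff.2 lt_injective this

theorem code_mem_LK {K : Set (List Bool)} {x : List Bool} : code x ∈ LK K ↔ x ∈ K := by
  constructor
  · intro h; exact h x rfl
  · intro h y hy; rw [code_injective hy]; exact h

theorem acyclic_look {E : LGraph k} (hE : Acyclic E) {t : ℕ} :
    look (clo (rev E) t) t = some [] := by
  obtain ⟨w, hw⟩ := exists_look_clo (Path.nil (E := rev E) t)
  have := hE t _ (path_of_rev (look_clo hw))
  rw [List.reverse_eq_nil_iff] at this
  rw [hw, this]

theorem acyclic_look' {E : LGraph k} (hE : Acyclic E) {s : ℕ} :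
    look (clo E s) s = some [] := by
  obtain ⟨w, hw⟩ := exists_look_clo (Path.nil (E := E) s)
  have := hE s _ (look_clo hw)
  rw [hw, this]

theorem exists_rev_look {E : LGraph k} {u t : ℕ} {w : List (Fin k)} (h : Path E u w t) :
    ∃ w', look (clo (rev E) t) u = some w' := exists_look_clo h.reverse

/-- after the separator there is only one word -/
theorem after {E : LGraph 3} (hE : Acyclic E) {s t : ℕ}
    (hC : ∀ w ∈ canon E s t, ∃ x, code x = w) {v : ℕ} {w : List (Fin 3)} (h : Path E v w t) :
    ∀ {α ω : List (Fin 3)}, look (clo E s) v = some α → look (clo (rev E) t) v = some ω →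
      2 ∉ ω.reverse → w = ω.reverse := by
  induction h with
  | nil u =>
    intro α ω _ hω _
    rw [acyclic_look hE] at hω
    simp only [Option.some.injEq] at hω
    rw [← hω]; rfl
  | @cons v v' t a w he h ih =>
    intro α ω hα hω h2
    obtain ⟨ω', hω'⟩ := exists_rev_look h
    obtain ⟨α', hα'⟩ := exists_look_clo ((look_clo hα).snoc he)
    obtain ⟨x, hx⟩ := hC _ (vert_mem_canon hα hω)
    obtain ⟨z, hz⟩ := hC _ (edge_mem_canon he hα hω')
    -- `α` contains the separator
    have h3 : (2 : Fin 3) ∈ α := by
      have : (2 : Fin 3) ∈ code x := by unfold code; simp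
      rw [hx, List.mem_append] at this
      rcases this with h | h
      · exact h
      · exact absurd h h2
    obtain ⟨p, q, hpq, hp⟩ := List.eq_append_cons_of_mem h3
    have h4 : x.map lt ++ 2 :: x.map lt = p ++ 2 :: (q ++ ω.reverse) := by
      have : code x = α ++ ω.reverse := hx
      rw [hpq] at this
      simpa [code] using this
    have h5 : z.map lt ++ 2 :: z.map lt = p ++ 2 :: (q ++ a :: ω'.reverse) := by
      have : code z = α ++ a :: ω'.reverse := hz
      rw [hpq] at this
      simpa [code] using this
    obtain ⟨h6, h7⟩ := split_unique (two_notMem_map x) hp h4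
    obtain ⟨h8, h9⟩ := split_unique (two_notMem_map z) hp h5
    have h10 : a :: ω'.reverse = ω.reverse := by
      rw [h8, ← h6, h7] at h9
      exact (List.append_cancel_left h9).symm
    have h11 : (2 : Fin 3) ∉ ω'.reverse := fun h => h2 (by
      rw [← h10]; exact List.mem_cons_of_mem _ h)
    rw [ih hC hα' hω' h11, h10]

/-- If all canonical words are code words, then every yield is a canonical word. -/
theorem mem_canon_of_path {E : LGraph 3} (hE : Acyclic E) {s t : ℕ}
    (hC : ∀ w ∈ canon E s t, ∃ x, code x = w) {u : ℕ} {w : List (Fin 3)} (h : Path E u w t) :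
    ∀ {α : List (Fin 3)}, look (clo E s) u = some α → 2 ∉ α → α ++ w ∈ canon E s t := by
  induction h with
  | nil u =>
    intro α hα _
    exact vert_mem_canon hα (acyclic_look hE)
  | @cons u v t a w he h ih =>
    intro α hα h2
    obtain ⟨ω, hω⟩ := exists_rev_look h
    obtain ⟨α', hα'⟩ := exists_look_clo ((look_clo hα).snoc he)
    obtain ⟨x, hx⟩ := hC _ (edge_mem_canon he hα hω)
    have hx' : x.map lt ++ 2 :: x.map lt = α ++ a :: ω.reverse := hx
    by_cases ha : a = 2
    · subst ha
      obtain ⟨h3, h4⟩ := split_unique (two_notMem_map x) h2 hx'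
      have h5 : (2 : Fin 3) ∉ ω.reverse := by rw [← h4]; exact two_notMem_map x
      rw [after hE hC h hα' hω h5]
      exact edge_mem_canon he hα hω
    · obtain ⟨y, hy⟩ := hC _ (vert_mem_canon hα' hω)
      have hy' : y.map lt ++ 2 :: y.map lt = α' ++ ω.reverse := hy
      have h3 : (2 : Fin 3) ∈ ω.reverse := by
        have : (2 : Fin 3) ∈ x.map lt ++ 2 :: x.map lt := by simp
        rw [hx', List.mem_append, List.mem_cons] at this
        rcases this with h | h | h
        · exact absurd h h2
        · exact absurd h.symm ha
        · exact h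
      obtain ⟨p, q, hpq, hp⟩ := List.eq_append_cons_of_mem h3
      rw [hpq] at hx' hy'
      have h4 : (2 : Fin 3) ∉ α ++ a :: p := by
        simp only [List.mem_append, List.mem_cons, not_or]
        exact ⟨h2, fun h => ha h.symm, hp⟩
      obtain ⟨h5, h6⟩ := split_unique (two_notMem_map x) h4
        (show x.map lt ++ 2 :: x.map lt = (α ++ a :: p) ++ 2 :: q by rw [hx']; simp)
      have h7 : (2 : Fin 3) ∉ α' := by
        intro h8
        obtain ⟨p', q', hpq', hp'⟩ := List.eq_append_cons_of_mem h8
        rw [hpq'] at hy'
        obtain ⟨_, h9⟩ := split_unique (two_notMem_map y) hp'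
          (show y.map lt ++ 2 :: y.map lt = p' ++ 2 :: (q' ++ (p ++ 2 :: q)) by rw [hy']; simp)
        apply two_notMem_map y
        rw [h9]
        simp
      obtain ⟨h8, h9⟩ := split_unique (two_notMem_map y) (p' := α' ++ p)
        (by simp only [List.mem_append, not_or]; exact ⟨h7, hp⟩)
        (show y.map lt ++ 2 :: y.map lt = (α' ++ p) ++ 2 :: q by rw [hy']; simp)
      have h10 : α' = α ++ [a] := by
        have : α' ++ p = (α ++ [a]) ++ p := by
          rw [← h8, h9, ← h6, h5]; simp
        exact List.append_cancel_right this
      have h11 := ih hC hα' h7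
      rw [h10] at h11
      simpa using h11

/-- **Canonical words decide reachability.** -/
theorem reach_iff (K : Set (List Bool)) {E : LGraph 3} (hE : Acyclic E) (s t : ℕ) :
    (∃ w ∈ LK K, Path E s w t) ↔ ∃ w ∈ canon E s t, w ∈ LK K := by
  constructor
  · rintro ⟨w, hw, h⟩
    by_contra hcon
    push Not at hcon
    have hC : ∀ w ∈ canon E s t, ∃ x, code x = w := by
      intro w' hw'
      have := hcon w' hw'
      unfold LK at this
      simp only [Set.mem_ofPred_eq, not_forall] at this
      obtain ⟨x, hx, _⟩ := this
      exact ⟨x, hx⟩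
    have := mem_canon_of_path hE hC h (acyclic_look' hE) (by simp)
    exact hcon w this hw
  · rintro ⟨w, hw, h⟩
    exact ⟨w, h, path_of_mem_canon hw⟩

end Pool.Agent.H31.Dag
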